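import Pool.Agent.P.MP_c8d52e_an.Gronwall

/-! Jacobians, symmetries, and the two-adic nondegeneracy of twisted cycles. -/

namespace Pool.Agent.P.MP_c8d52e_an

open Complex ComplexConjugate Matrix

noncomputable def toL (A : Matrix (Fin 2) (Fin 2) ℂ) : ℂ × ℂ →L[ℂ] ℂ × ℂ :=
  (A 0 0 • ContinuousLinearMap.fst ℂ ℂ ℂ + A 0 1 • ContinuousLinearMap.snd ℂ ℂ ℂ).prod
    (A 1 0 • ContinuousLinearMap.fst ℂ ℂ ℂ + A 1 1 • ContinuousLinearMap.snd ℂ ℂ ℂ)

@[simp] lemma toL_apply (A : Matrix (Fin 2) (Fin 2) ℂ) (q : ℂ × ℂ) :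
    toL A q = (A 0 0 * q.1 + A 0 1 * q.2, A 1 0 * q.1 + A 1 1 * q.2) := by
  simp [toL]

lemma toL_mul (A B : Matrix (Fin 2) (Fin 2) ℂ) : toL (A * B) = (toL A).comp (toL B) := by
  refine ContinuousLinearMap.ext fun q => ?_
  ext <;> simp [Matrix.mul_apply, Fin.sum_univ_two] <;> ring

lemma toL_one : toL 1 = ContinuousLinearMap.id ℂ _ := by
  refine ContinuousLinearMap.ext fun q => ?_
  ext <;> simp

def JS {R : Type*} [CommRing R] (y : ℕ → R) : ℕ → Matrix (Fin 2) (Fin 2) R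
  | 0 => 1
  | n + 1 => !![0, 1; 1, 2 * y n] * JS y n

lemma JS_map {R R' : Type*} [CommRing R] [CommRing R'] (f : R →+* R') (y : ℕ → R) (n : ℕ) :
    (JS y n).map f = JS (fun k => f (y k)) n := by
  induction n with
  | zero => simp [JS]
  | succ n ih =>
    simp only [JS]
    rw [Matrix.map_mul, ih]
    congr 1
    ext i k; fin_cases i <;> fin_cases k <;> simp [map_ofNat]

lemma JS_det {R : Type*} [CommRing R] (y : ℕ → R) (n : ℕ) : (JS y n).det = (-1) ^ n := by
  induction n with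
  | zero => simp [JS]
  | succ n ih => simp only [JS]; rw [det_mul, ih, det_fin_two_of]; ring

lemma JS_char_two {R : Type*} [CommRing R] (h2 : (2 : R) = 0) (y : ℕ → R) (k : ℕ) :
    JS y (2 * k + 1) = !![0, 1; 1, 0] := by
  induction k with
  | zero => simp [JS, h2]
  | succ k ih =>
    rw [show 2 * (k + 1) + 1 = 2 * k + 1 + 1 + 1 by ring, JS, JS, ih, h2]
    simp

noncomputable def Jac (n : ℕ) (p : ℂ × ℂ) : Matrix (Fin 2) (Fin 2) ℂ :=
  JS (fun k => (henon^[k] p).2) n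

lemma Jac_succ (n : ℕ) (p : ℂ × ℂ) :
    Jac (n + 1) p = !![0, 1; 1, 2 * (henon^[n] p).2] * Jac n p := rfl

lemma hasFDerivAt_henon (p : ℂ × ℂ) : HasFDerivAt henon (toL !![0, 1; 1, 2 * p.2]) p := by
  have h := (hasFDerivAt_snd (𝕜 := ℂ) (p := p)).prodMk
    ((hasFDerivAt_fst (𝕜 := ℂ) (p := p)).add ((hasFDerivAt_snd (𝕜 := ℂ) (p := p)).pow 2))
  refine HasFDerivAt.congr_fderiv h ?_
  refine ContinuousLinearMap.ext fun q => ?_
  ext <;> simp

lemma hasFDerivAt_iter (n : ℕ) (p : ℂ × ℂ) : HasFDerivAt (henon^[n]) (toL (Jac n p)) p := by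
  induction n with
  | zero =>
    have : Jac 0 p = 1 := rfl
    rw [this, toL_one]; exact hasFDerivAt_id p
  | succ n ih =>
    rw [Function.iterate_succ', Jac_succ, toL_mul]
    exact (hasFDerivAt_henon _).comp p ih

lemma Jac_add (m n : ℕ) (p : ℂ × ℂ) : Jac (m + n) p = Jac m (henon^[n] p) * Jac n p := by
  induction m with
  | zero => simp [Jac, JS]
  | succ m ih =>
    rw [show m + 1 + n = (m + n) + 1 by ring, Jac_succ, Jac_succ, ih, Matrix.mul_assoc,
      Function.iterate_add_apply]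

lemma Jac_det (n : ℕ) (p : ℂ × ℂ) : (Jac n p).det = (-1) ^ n := JS_det _ _

noncomputable def sig (a : ℂ) (p : ℂ × ℂ) : ℂ × ℂ := (a * conj p.1, a ^ 2 * conj p.2)

def Dg {R : Type*} [CommRing R] (a : R) : Matrix (Fin 2) (Fin 2) R := !![a, 0; 0, a ^ 2]

lemma henon_sig {a : ℂ} (ha : a ^ 3 = 1) (p : ℂ × ℂ) : henon (sig a p) = sig (a ^ 2) (henon p) := by
  ext
  · simp [henon, sig]
  · simp only [henon, sig, map_add, map_pow]
    linear_combination (-a * conj p.1) * ha

lemma iter_sig {a : ℂ} (ha : a ^ 3 = 1) (p : ℂ × ℂ) (n : ℕ) :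
    henon^[n] (sig a p) = sig (a ^ 2 ^ n) (henon^[n] p) := by
  induction n with
  | zero => simp
  | succ n ih =>
    rw [Function.iterate_succ_apply', Function.iterate_succ_apply', ih, henon_sig, ← pow_mul,
      pow_succ]
    rw [← pow_mul, mul_comm, pow_mul, ha, one_pow]

lemma Jac_sig {a : ℂ} (ha : a ^ 3 = 1) (p : ℂ × ℂ) (n : ℕ) :
    Jac n (sig a p) * Dg a = Dg (a ^ 2 ^ n) * (Jac n p).map conj := by
  induction n with
  | zero => simp [Jac, JS]
  | succ n ih =>
    have hb : (a ^ 2 ^ n) ^ 3 = 1 := by rw [← pow_mul, mul_comm, pow_mul, ha, one_pow]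
    rw [Jac_succ, Jac_succ, Matrix.mul_assoc, ih, Matrix.map_mul, ← Matrix.mul_assoc,
      ← Matrix.mul_assoc, iter_sig ha, pow_succ 2 n, pow_mul]
    congr 1
    generalize a ^ 2 ^ n = b at hb
    ext i k
    fin_cases i <;> fin_cases k <;>
      simp [Dg, sig, Matrix.mul_apply, Fin.sum_univ_two, map_ofNat]
    · linear_combination (-b) * hb
    · ring

lemma pow_two_pow_odd {a : ℂ} (ha : a ^ 3 = 1) (k : ℕ) : a ^ 2 ^ (2 * k + 1) = a ^ 2 := by
  induction k with
  | zero => simp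
  | succ k ih =>
    rw [show 2 * (k + 1) + 1 = 2 * k + 1 + 2 by ring, pow_add, pow_mul, ih]
    linear_combination (a ^ 5 + a ^ 2) * ha

lemma conj_of_cube {a : ℂ} (ha : a ^ 3 = 1) : conj a = a ^ 2 := by
  have h1 : ‖a‖ = 1 := by
    have := congrArg norm ha
    rw [norm_pow, norm_one] at this
    exact (pow_eq_one_iff_of_nonneg (norm_nonneg _) (by norm_num)).mp this
  have h2 : a * conj a = 1 := by rw [mul_conj, normSq_eq_norm_sq, h1]; simp
  linear_combination (-conj a) * ha + a ^ 2 * h2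

lemma norm_sig {a : ℂ} (ha : a ^ 3 = 1) (p : ℂ × ℂ) : ‖sig a p‖ = ‖p‖ := by
  have h1 : ‖a‖ = 1 := by
    have := congrArg norm ha
    rw [norm_pow, norm_one] at this
    exact (pow_eq_one_iff_of_nonneg (norm_nonneg _) (by norm_num)).mp this
  simp [sig, Prod.norm_def, h1]

lemma iter_sig_odd {a : ℂ} (ha : a ^ 3 = 1) (p : ℂ × ℂ) (k : ℕ) :
    henon^[2 * k + 1] (sig a p) = sig (a ^ 2) (henon^[2 * k + 1] p) := by
  rw [iter_sig ha, pow_two_pow_odd ha]

lemma Dg_mul (a b : ℂ) : Dg a * Dg b = Dg (a * b) := by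
  simp [Dg, mul_pow]

lemma Dg_one : Dg (1 : ℂ) = 1 := by
  simp [Dg, Matrix.one_fin_two]

lemma Dg_map (a : ℂ) : (Dg a).map conj = Dg (conj a) := by
  ext i k; fin_cases i <;> fin_cases k <;> simp [Dg]

lemma Jac_sig_odd {a : ℂ} (ha : a ^ 3 = 1) (p : ℂ × ℂ) (k : ℕ) :
    Jac (2 * k + 1) (sig a p) = Dg (a ^ 2) * (Jac (2 * k + 1) p).map conj * Dg (a ^ 2) := by
  have h := Jac_sig ha p (2 * k + 1)
  rw [pow_two_pow_odd ha] at h
  rw [← h, Matrix.mul_assoc, Dg_mul, ← pow_succ', ha, Dg_one, Matrix.mul_one]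

lemma map_conj_conj (A : Matrix (Fin 2) (Fin 2) ℂ) : (A.map conj).map conj = A := by
  ext i k; simp

noncomputable def Nmat (j : ℂ) (J : Matrix (Fin 2) (Fin 2) ℂ) : Matrix (Fin 2) (Fin 2) ℂ :=
  Dg j * J.map conj * Dg (j ^ 2) * J

lemma six_period {j : ℂ} (hj : j ^ 3 = 1) {p : ℂ × ℂ} {k : ℕ}
    (hp : henon^[2 * k + 1] p = sig j p) :
    henon^[6 * (2 * k + 1)] p = p ∧
      Jac (6 * (2 * k + 1)) p = Nmat j (Jac (2 * k + 1) p) ^ 3 := by
  have hj2 : (j ^ 2) ^ 3 = 1 := by linear_combination (j ^ 3 + 1) * hj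
  have hj4 : (j ^ 2) ^ 2 = j := by linear_combination j * hj
  have c1 : conj j = j ^ 2 := conj_of_cube hj
  have c2 : conj (j ^ 2) = j := by rw [conj_of_cube hj2, hj4]
  set m := 2 * k + 1 with hm
  have a1 : ∀ q, henon^[m] (sig j q) = sig (j ^ 2) (henon^[m] q) := fun q => iter_sig_odd hj q k
  have a2 : ∀ q, henon^[m] (sig (j ^ 2) q) = sig j (henon^[m] q) := fun q => by
    rw [iter_sig_odd hj2, hj4]
  have b1 : ∀ q, Jac m (sig j q) = Dg (j ^ 2) * (Jac m q).map conj * Dg (j ^ 2) :=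
    fun q => Jac_sig_odd hj q k
  have b2 : ∀ q, Jac m (sig (j ^ 2) q) = Dg j * (Jac m q).map conj * Dg j := fun q => by
    rw [Jac_sig_odd hj2, hj4]
  have i2 : henon^[m + m] p = sig (j ^ 2) (sig j p) := by
    rw [Function.iterate_add_apply, hp, a1, hp]
  have i3 : henon^[m + (m + m)] p = sig j (sig (j ^ 2) (sig j p)) := by
    rw [Function.iterate_add_apply, i2, a2, a1, hp]
  have i4 : henon^[m + (m + (m + m))] p = sig (j ^ 2) (sig j (sig (j ^ 2) (sig j p))) := by
    rw [Function.iterate_add_apply, i3, a1, a2, a1, hp]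
  have i5 : henon^[m + (m + (m + (m + m)))] p =
      sig j (sig (j ^ 2) (sig j (sig (j ^ 2) (sig j p)))) := by
    rw [Function.iterate_add_apply, i4, a2, a1, a2, a1, hp]
  have i6 : henon^[m + (m + (m + (m + (m + m))))] p =
      sig (j ^ 2) (sig j (sig (j ^ 2) (sig j (sig (j ^ 2) (sig j p))))) := by
    rw [Function.iterate_add_apply, i5, a1, a2, a1, a2, a1, hp]
  rw [show 6 * m = m + (m + (m + (m + (m + m)))) by ring]
  constructor
  · rw [i6]
    ext
    · simp only [sig, map_mul, conj_conj, c1, c2]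
      linear_combination (j ^ 9 + j ^ 6 + j ^ 3 + 1) * p.1 * hj
    · simp only [sig, map_mul, conj_conj, hj4, c1, c2]
      linear_combination (j ^ 3 + 1) * p.2 * hj
  · clear_value m
    rw [Jac_add, Jac_add, Jac_add, Jac_add, Jac_add, i5, i4, i3, i2, hp, b1, b2, b1, b2, b1]
    have s1 : Dg j * Dg j = Dg (j ^ 2) := by rw [Dg_mul, sq]
    have s2 : Dg (j ^ 2) * Dg (j ^ 2) = Dg j := by rw [Dg_mul, ← sq, hj4]
    have s3 : Dg j * Dg (j ^ 2) = 1 := by rw [Dg_mul, ← pow_succ', hj, Dg_one]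
    have s4 : Dg (j ^ 2) * Dg j = 1 := by rw [Dg_mul, ← pow_succ, hj, Dg_one]
    have t1 : ∀ X, Dg j * (Dg j * X) = Dg (j ^ 2) * X := fun X => by rw [← Matrix.mul_assoc, s1]
    have t2 : ∀ X, Dg (j ^ 2) * (Dg (j ^ 2) * X) = Dg j * X := fun X => by
      rw [← Matrix.mul_assoc, s2]
    have t3 : ∀ X, Dg j * (Dg (j ^ 2) * X) = X := fun X => by
      rw [← Matrix.mul_assoc, s3, Matrix.one_mul]
    have t4 : ∀ X, Dg (j ^ 2) * (Dg j * X) = X := fun X => by
      rw [← Matrix.mul_assoc, s4, Matrix.one_mul]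
    rw [pow_three (Nmat _ _)]
    simp only [Nmat, Matrix.map_mul, Dg_map, c1, c2, map_conj_conj,
      Matrix.mul_assoc, t1, t2, t3, t4]

lemma orbit_bound {j : ℂ} (hj : j ^ 3 = 1) {p : ℂ × ℂ} {m : ℕ} (hm : 0 < m)
    (hp : henon^[m] p = sig j p) {R : ℝ} (hR : ∀ n ≤ m, ‖henon^[n] p‖ ≤ R) (n : ℕ) :
    ‖henon^[n] p‖ ≤ R := by
  induction n using Nat.strong_induction_on with
  | _ n ih =>
    by_cases h : n ≤ m
    · exact hR n h
    · obtain ⟨i, rfl⟩ : ∃ i, n = i + m := ⟨n - m, by omega⟩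
      rw [Function.iterate_add_apply, hp, iter_sig hj, norm_sig]
      · exact ih i (by omega)
      · rw [← pow_mul, mul_comm, pow_mul, hj, one_pow]

lemma mem_valuation (V : ValuationSubring ℂ) {p : ℂ × ℂ} {N : ℕ} (hN : 0 < N)
    (hp : henon^[N] p = p) (n : ℕ) : (henon^[n] p).2 ∈ V := by
  set x : ℕ → ℂ := fun k => (henon^[k] p).2 with hx
  have hrec : ∀ k, x (k + 1) ^ 2 = x (k + 2) - x k := by
    intro k
    simp only [hx]
    rw [show k + 2 = k + 1 + 1 from rfl, Function.iterate_succ_apply' henon (k + 1),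
      Function.iterate_succ_apply' henon k]
    simp [henon]
  have hper : Function.Periodic x N := fun k => by
    simp only [hx]; rw [Function.iterate_add_apply, hp]
  obtain ⟨k0, -, hk0⟩ := Finset.exists_max_image (Finset.range N) (fun k => V.valuation (x k))
    ⟨0, Finset.mem_range.mpr hN⟩
  have hmax : ∀ k, V.valuation (x k) ≤ V.valuation (x k0) := fun k => by
    rw [← hper.map_mod_nat k]
    exact hk0 _ (Finset.mem_range.mpr (Nat.mod_lt _ hN))
  have h1 : V.valuation (x k0) ^ 2 ≤ V.valuation (x k0) := by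
    have e : x k0 = x (k0 + N - 1 + 1) := by
      rw [show k0 + N - 1 + 1 = k0 + N by omega, hper]
    rw [← map_pow]
    conv_lhs => rw [e, hrec]
    exact V.valuation.map_sub_le (hmax _) (hmax _)
  have h2 : V.valuation (x k0) ≤ 1 := by
    by_contra hn
    push Not at hn
    have h0 : 0 < V.valuation (x k0) := lt_trans zero_lt_one hn
    rw [sq] at h1
    exact absurd (lt_mul_of_one_lt_right h0 hn) (not_lt.mpr h1)
  exact (V.valuation_le_one_iff _).mp ((hmax n).trans h2)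

lemma exists_valuation : ∃ V : ValuationSubring ℂ, (2 : ℂ) ∈ V.nonunits := by
  have hI : Ideal.span {(2 : (Int.castRingHom ℂ).range)} ≠ ⊤ := by
    rw [Ne, Ideal.span_singleton_eq_top, isUnit_iff_exists_inv]
    rintro ⟨⟨_, n, rfl⟩, h⟩
    have h2 : (2 : ℂ) * n = 1 := congrArg Subtype.val h
    have h3 : (2 : ℤ) * n = 1 := by exact_mod_cast h2
    omega
  obtain ⟨V, -, hV⟩ := Ideal.image_subset_nonunits_valuationSubring _ hI
  exact ⟨V, hV ⟨2, Ideal.mem_span_singleton_self _, rfl⟩⟩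

lemma trace_ne_two {j : ℂ} (hj : j ^ 2 + j + 1 = 0) {p : ℂ × ℂ} {N : ℕ} (hN : 0 < N)
    (hp : henon^[N] p = p) (k : ℕ) : (Nmat j (Jac (2 * k + 1) p)).trace ≠ 2 := by
  intro h
  obtain ⟨V, hV⟩ := exists_valuation
  have hj3 : j ^ 3 = 1 := by linear_combination (j - 1) * hj
  have hjV : j ∈ V := by
    rw [← V.valuation_le_one_iff]
    have := congrArg V.valuation hj3
    rw [map_pow, map_one] at this
    exact ((pow_eq_one_iff_of_nonneg zero_le (by norm_num)).mp this).le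
  have hs : ∀ n, henon^[n] (sig 1 p) = sig 1 (henon^[n] p) := fun n => by
    rw [iter_sig (by simp), one_pow]
  have h1 : ∀ n, (henon^[n] p).2 ∈ V := mem_valuation V hN hp
  have h2 : ∀ n, conj (henon^[n] p).2 ∈ V := fun n => by
    have := mem_valuation V hN (p := sig 1 p) (by rw [hs, hp]) n
    rw [hs] at this
    simpa [sig] using this
  let y : ℕ → V := fun n => ⟨_, h1 n⟩
  let y' : ℕ → V := fun n => ⟨_, h2 n⟩
  let j' : V := ⟨j, hjV⟩
  have e1 : Jac (2 * k + 1) p = (JS y (2 * k + 1)).map V.subtype := by rw [JS_map]; rfl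
  have e2 : (Jac (2 * k + 1) p).map conj = (JS y' (2 * k + 1)).map V.subtype := by
    rw [JS_map, Jac, JS_map]; rfl
  have hmap : ∀ {R R' : Type} [CommRing R] [CommRing R'] (f : R →+* R') (a : R)
      (A B : Matrix (Fin 2) (Fin 2) R), f (Dg a * A * Dg (a ^ 2) * B).trace =
        (Dg (f a) * A.map f * Dg (f a ^ 2) * B.map f).trace := by
    intro R R' _ _ f a A B
    simp only [Dg, Matrix.trace_fin_two, Matrix.mul_apply, Fin.sum_univ_two, of_apply, cons_val',
      cons_val_zero, cons_val_one, cons_val_fin_one, map_add, map_mul, map_pow, map_zero,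
      Matrix.map_apply]
  have e3 : (Dg j' * JS y' (2 * k + 1) * Dg (j' ^ 2) * JS y (2 * k + 1)).trace = 2 := by
    apply Subtype.val_injective
    have := hmap V.subtype j' (JS y' (2 * k + 1)) (JS y (2 * k + 1))
    rw [← e1, ← e2] at this
    exact this.trans h
  have h20 : IsLocalRing.residue V 2 = 0 := by
    rw [IsLocalRing.residue_eq_zero_iff]
    exact ValuationSubring.coe_mem_nonunits_iff.mp hV
  have h2' : (2 : IsLocalRing.ResidueField V) = 0 := by rw [← h20, map_ofNat]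
  have e4 := hmap (IsLocalRing.residue V) j' (JS y' (2 * k + 1)) (JS y (2 * k + 1))
  rw [e3, h20, JS_map, JS_map, JS_char_two h2', JS_char_two h2'] at e4
  have hj' : j' ^ 2 + j' + 1 = 0 := Subtype.val_injective hj
  have e5 := congrArg (IsLocalRing.residue V) hj'
  rw [map_add, map_add, map_pow, map_one, map_zero] at e5
  generalize IsLocalRing.residue V j' = a at e4 e5
  simp only [Dg, Matrix.trace_fin_two, Matrix.mul_apply, Fin.sum_univ_two, of_apply, cons_val',
    cons_val_zero, cons_val_one, cons_val_fin_one] at e4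
  have : (1 : IsLocalRing.ResidueField V) = 0 := by
    linear_combination e4 + (a ^ 3 - a + 1) * e5
  exact one_ne_zero this

end Pool.Agent.P.MP_c8d52e_an
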