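import Mathlib

/-! Elementary lemmas for the reduction to one real variable. -/

namespace Pool.Agent.P.MP_c8d52e_an

open Complex ComplexConjugate Metric Set Filter Topology Asymptotics

lemma lip_of_small {f : ℂ × ℂ → ℂ × ℂ} {r ε : ℝ} (hr : 0 < r)
    (hd : DifferentiableOn ℂ f (ball 0 (4 * r))) (hb : ∀ q : ℂ × ℂ, ‖q‖ < 4 * r → ‖f q‖ ≤ ε)
    {b : ℂ × ℂ} (hb' : ‖b‖ ≤ r) :
    (∀ a : ℂ × ℂ, ‖a‖ ≤ r → ‖f a - f b‖ ≤ 2 * ε / (3 * r) * ‖a - b‖) ∧
      ‖fderiv ℂ f b‖ ≤ 2 * ε / (3 * r) := by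
  have hsub : ball b (3 * r) ⊆ ball 0 (4 * r) := by
    intro x hx
    rw [mem_ball_zero_iff]
    rw [mem_ball, dist_eq_norm] at hx
    have := norm_add_le (x - b) b
    rw [sub_add_cancel] at this
    linarith
  have hmaps : MapsTo f (ball b (3 * r)) (closedBall (f b) (2 * ε)) := by
    intro x hx
    rw [mem_closedBall, dist_eq_norm]
    have h1 := hb x (mem_ball_zero_iff.mp (hsub hx))
    have h2 := hb b (by linarith)
    have := norm_sub_le (f x) (f b)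
    linarith
  refine ⟨fun a ha => ?_, norm_fderiv_le_div_of_mapsTo_ball (hd.mono hsub) hmaps (by linarith)⟩
  have ha' : a ∈ ball b (3 * r) := by
    rw [mem_ball, dist_eq_norm]
    have := norm_sub_le a b
    linarith
  simpa [dist_eq_norm] using dist_le_div_mul_dist_of_mapsTo_ball (hd.mono hsub) hmaps ha'

lemma exists_fix {φ : ℂ × ℂ → ℂ × ℂ} {R : ℝ} (hR : 0 ≤ R)
    (h1 : ∀ x, ‖x‖ ≤ R → ‖φ x‖ ≤ R)
    (h2 : ∀ x y, ‖x‖ ≤ R → ‖y‖ ≤ R → ‖φ x - φ y‖ ≤ 1 / 2 * ‖x - y‖) :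
    ∃ x, ‖x‖ ≤ R ∧ φ x = x := by
  have hm : MapsTo φ (closedBall 0 R) (closedBall 0 R) := fun x hx =>
    mem_closedBall_zero_iff.mpr (h1 x (mem_closedBall_zero_iff.mp hx))
  have hc : ContractingWith (1 / 2) (hm.restrict φ _ _) := by
    refine ⟨by norm_num, LipschitzWith.of_dist_le_mul fun x y => ?_⟩
    have := h2 x y (mem_closedBall_zero_iff.mp x.2) (mem_closedBall_zero_iff.mp y.2)
    simpa [Subtype.dist_eq, dist_eq_norm] using this
  obtain ⟨y, hy, hf, -⟩ := hc.exists_fixedPoint' isClosed_closedBall.isComplete hm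
    (mem_closedBall_self hR) (edist_ne_top _ _)
  exact ⟨y, mem_closedBall_zero_iff.mp hy, hf⟩

lemma sign_near {g : ℝ → ℝ} {c s : ℝ} (h : HasDerivAt g c s) (hc : 0 < c) (h0 : g s = 0) :
    (∀ᶠ x in 𝓝[<] s, g x < 0) ∧ (∀ᶠ x in 𝓝[>] s, 0 < g x) := by
  have h1 := (hasDerivAt_iff_tendsto_slope.mp h).eventually (lt_mem_nhds hc)
  constructor
  · filter_upwards [nhdsLT_le_nhdsNE s h1, self_mem_nhdsWithin] with x hx hxs
    rw [slope_def_field, h0, sub_zero] at hx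
    have : x - s < 0 := sub_neg.mpr hxs
    by_contra hn
    have := div_nonpos_of_nonneg_of_nonpos (not_lt.mp hn) this.le
    linarith
  · filter_upwards [nhdsGT_le_nhdsNE s h1, self_mem_nhdsWithin] with x hx hxs
    rw [slope_def_field, h0, sub_zero] at hx
    have : 0 < x - s := sub_pos.mpr hxs
    exact (div_pos_iff_of_pos_right this).mp hx

lemma exists_neg_deriv {g d : ℝ → ℝ} {T : ℝ} (hT : 0 < T) (hc : Continuous g) (h0 : g 0 = 0)
    (h1 : g T = 0) (hd : ∀ s, g s = 0 → HasDerivAt g (d s) s ∧ d s ≠ 0) :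
    ∃ s, g s = 0 ∧ d s < 0 := by
  by_contra hn
  push Not at hn
  have hpos : ∀ s, g s = 0 → 0 < d s := fun s hs => lt_of_le_of_ne (hn s hs) (hd s hs).2.symm
  obtain ⟨a, ha, haT, ha0⟩ : ∃ a, 0 < g a ∧ a < T ∧ 0 < a := by
    have e1 := (sign_near (hd 0 h0).1 (hpos 0 h0) h0).2
    have e2 : ∀ᶠ x in 𝓝[>] (0 : ℝ), x < T := nhdsWithin_le_nhds (gt_mem_nhds hT)
    exact (e1.and (e2.and self_mem_nhdsWithin)).exists
  have hZ : IsCompact (Icc a T ∩ g ⁻¹' {0}) :=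
    isCompact_Icc.inter_right (isClosed_singleton.preimage hc)
  obtain ⟨s, hs⟩ := hZ.exists_isLeast ⟨T, ⟨haT.le, le_rfl⟩, h1⟩
  have hs0 : g s = 0 := hs.1.2
  have has : a < s := lt_of_le_of_ne hs.1.1.1 (by rintro rfl; exact ha.ne' hs0)
  obtain ⟨x, hx, hax, hxs⟩ : ∃ x, g x < 0 ∧ a < x ∧ x < s := by
    have e1 := (sign_near (hd s hs0).1 (hpos s hs0) hs0).1
    have e2 : ∀ᶠ x in 𝓝[<] s, a < x := nhdsWithin_le_nhds (lt_mem_nhds has)
    exact (e1.and (e2.and self_mem_nhdsWithin)).exists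
  obtain ⟨y, hy, hy0⟩ := intermediate_value_Icc' hax.le hc.continuousOn ⟨hx.le, ha.le⟩
  have := hs.2 ⟨⟨hy.1, by linarith [hy.2, hs.1.1.2]⟩, hy0⟩
  linarith [hy.2]

noncomputable def q1 (l : ℝ) (W : ℂ × ℂ) : ℂ × ℂ :=
  (⟨0, (W.1.im - l * W.2.im / 2) / 2⟩, ⟨W.1.re / l, W.2.im / 2⟩)

noncomputable def q2 (l : ℝ) (W : ℂ × ℂ) : ℂ × ℂ :=
  (⟨0, -((W.1.im - l * W.2.im / 2) / 2)⟩, ⟨W.1.re / l - W.2.re, -(W.2.im / 2)⟩)

lemma q1_sub (l : ℝ) (W W' : ℂ × ℂ) : q1 l W - q1 l W' = q1 l (W - W') := by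
  ext <;> apply Complex.ext <;> simp [q1] <;> ring

lemma q2_sub (l : ℝ) (W W' : ℂ × ℂ) : q2 l W - q2 l W' = q2 l (W - W') := by
  ext <;> apply Complex.ext <;> simp [q2] <;> ring

lemma q_id {l : ℝ} (hl : l ≠ 0) (W : ℂ × ℂ) :
    ((q1 l W).1 + l * (q1 l W).2, (q1 l W).2) - q2 l W = W := by
  ext <;> apply Complex.ext <;> simp [q1, q2] <;> field_simp <;> ring

lemma q_bounds {l : ℝ} (hl1 : 1 ≤ l) (hl2 : l ≤ 2) (W : ℂ × ℂ) :
    ‖q1 l W‖ ≤ 3 * ‖W‖ ∧ ‖q2 l W‖ ≤ 3 * ‖W‖ := by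
  have a1 : |W.1.re| ≤ ‖W‖ := (abs_re_le_norm _).trans (norm_fst_le W)
  have a2 : |W.1.im| ≤ ‖W‖ := (abs_im_le_norm _).trans (norm_fst_le W)
  have a3 : |W.2.re| ≤ ‖W‖ := (abs_re_le_norm _).trans (norm_snd_le W)
  have a4 : |W.2.im| ≤ ‖W‖ := (abs_im_le_norm _).trans (norm_snd_le W)
  have hW := norm_nonneg W
  have b1 : |W.1.re / l| ≤ ‖W‖ := by
    rw [abs_div, abs_of_pos (by linarith : 0 < l), div_le_iff₀ (by linarith)]; nlinarith
  have b2 : |l * W.2.im / 2| ≤ ‖W‖ := by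
    rw [abs_div, abs_mul, abs_of_pos (by linarith : 0 < l), abs_two]
    nlinarith [abs_nonneg W.2.im]
  have b3 : |(W.1.im - l * W.2.im / 2) / 2| ≤ ‖W‖ := by
    rw [abs_div, abs_two]
    have := abs_sub W.1.im (l * W.2.im / 2)
    linarith
  have b4 : |W.2.im / 2| ≤ ‖W‖ := by rw [abs_div, abs_two]; linarith
  have b5 : |W.1.re / l - W.2.re| ≤ 2 * ‖W‖ := by
    have := abs_sub (W.1.re / l) W.2.re
    linarith
  constructor
  · refine norm_prod_le_iff.mpr ⟨(norm_le_abs_re_add_abs_im _).trans ?_,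
      (norm_le_abs_re_add_abs_im _).trans ?_⟩
    · simp only [q1, abs_zero]; linarith
    · simp only [q1]; linarith
  · refine norm_prod_le_iff.mpr ⟨(norm_le_abs_re_add_abs_im _).trans ?_,
      (norm_le_abs_re_add_abs_im _).trans ?_⟩
    · simp only [q2, abs_zero, abs_neg]; linarith
    · simp only [q2, abs_neg]; linarith

lemma close_of_comp {A B : ℂ × ℂ →L[ℂ] ℂ × ℂ} {x y w : ℂ × ℂ} {S : ℂ × ℂ →L[ℂ] ℂ × ℂ}
    (hA : ‖A - S‖ ≤ 1 / 1000) (hB : ‖B - ContinuousLinearMap.id ℂ _‖ ≤ 1 / 1000)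
    (h : B x = A w) (hw : ‖w‖ ≤ 1) (hy : S w = y) (hy2 : ‖y‖ ≤ 2) : ‖x - y‖ ≤ 1 / 100 := by
  have h1 : ‖A w - y‖ ≤ 1 / 1000 := by
    have := (A - S).le_opNorm w
    rw [sub_apply, hy] at this
    nlinarith [norm_nonneg (A - S), norm_nonneg w]
  have h2 : ‖B x - x‖ ≤ 1 / 1000 * ‖x‖ := by
    have := (B - ContinuousLinearMap.id ℂ _).le_opNorm x
    rw [sub_apply, ContinuousLinearMap.id_apply] at this
    nlinarith [norm_nonneg x]
  have h3 : ‖x - y‖ ≤ ‖A w - y‖ + ‖B x - x‖ := by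
    rw [show x - y = (A w - y) - (B x - x) by rw [h]; abel]
    exact norm_sub_le _ _
  have h4 : ‖x‖ ≤ ‖x - y‖ + ‖y‖ := by
    have := norm_add_le (x - y) y
    rwa [sub_add_cancel] at this
  linarith

lemma rho_pos {l : ℝ} (hl1 : 1 ≤ l) (hl2 : l ≤ 2) {α β γ δ : ℂ} (ha : ‖α - 1‖ ≤ 1 / 100)
    (hb : ‖β - l‖ ≤ 1 / 100) (hd : ‖δ - 1‖ ≤ 1 / 100) (hD : ‖α * δ - β * γ‖ = 1) :
    0 < (β * conj (α * δ - β * γ) + conj β * (1 + δ) + conj α * β).re := by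
  have hl : ‖(l : ℂ)‖ ≤ 2 := by rw [norm_real, Real.norm_eq_abs, abs_of_pos (by linarith)]; exact hl2
  have hβ : ‖β‖ ≤ l + 1 / 100 := by
    have := norm_add_le (β - l) l
    rw [sub_add_cancel, norm_real, Real.norm_eq_abs, abs_of_pos (by linarith)] at this
    linarith
  have e1 : ‖β * conj (α * δ - β * γ)‖ ≤ l + 1 / 100 := by
    rw [norm_mul, norm_conj, hD, mul_one]; exact hβ
  have e2 : ‖conj β * (1 + δ) + conj α * β - 3 * l‖ ≤ 1 / 10 := by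
    have : conj β * (1 + δ) + conj α * β - 3 * l =
        conj β * (δ - 1) + 2 * conj (β - l) + conj (α - 1) * β + (β - l) := by
      simp only [map_sub, conj_ofReal, map_one]; ring
    rw [this]
    have n1 : ‖conj β * (δ - 1)‖ ≤ 3 * (1 / 100) := by
      rw [norm_mul, norm_conj]; gcongr; linarith
    have n2 : ‖2 * conj (β - l)‖ ≤ 2 * (1 / 100) := by
      rw [norm_mul, norm_conj]; gcongr; simp
    have n3 : ‖conj (α - 1) * β‖ ≤ (1 / 100) * 3 := by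
      rw [norm_mul, norm_conj]; gcongr; linarith
    have := norm_add_le (conj β * (δ - 1) + 2 * conj (β - l) + conj (α - 1) * β) (β - l)
    have := norm_add_le (conj β * (δ - 1) + 2 * conj (β - l)) (conj (α - 1) * β)
    have := norm_add_le (conj β * (δ - 1)) (2 * conj (β - l))
    linarith
  have f1 := (abs_re_le_norm _).trans e1
  have f2 := (abs_re_le_norm _).trans e2
  have g : (β * conj (α * δ - β * γ) + conj β * (1 + δ) + conj α * β).re =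
      (β * conj (α * δ - β * γ)).re + (conj β * (1 + δ) + conj α * β - 3 * l).re + 3 * l := by
    simp only [add_re, sub_re]
    have : ((3 : ℂ) * l).re = 3 * l := by simp
    rw [this]; ring
  rw [g]
  have := neg_abs_le (β * conj (α * δ - β * γ)).re
  have := neg_abs_le (conj β * (1 + δ) + conj α * β - 3 * l).re
  linarith

end Pool.Agent.P.MP_c8d52e_an
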