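import Pool.Agent.P.MP_c8d52e_an.Core1

/-! Reduction of the fixed point equation to one real variable. -/

namespace Pool.Agent.P.MP_c8d52e_an

open Complex ComplexConjugate Metric Set Filter Topology Asymptotics

structure Setup where
  l : ℝ
  r : ℝ
  T : ℝ
  Γ : ℂ × ℂ → ℂ × ℂ
  Θ : ℂ × ℂ → ℂ × ℂ
  Ti : ℝ → (ℂ × ℂ →L[ℂ] ℂ × ℂ)
  hl1 : 1 ≤ l
  hl2 : l ≤ 2
  hr : 0 < r
  hT : 0 < T
  hTi : ∀ s, Function.Injective (Ti s)
  hΓ : ∀ q : ℂ × ℂ, |q.1.im| < 4 * r → ‖q.2 - 1‖ < 4 * r → DifferentiableAt ℂ Γ q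
  hΘ : ∀ q : ℂ × ℂ, |q.1.im| < 4 * r → ‖q.2 - 1‖ < 4 * r → DifferentiableAt ℂ Θ q
  hA : ∀ (s : ℝ) (q : ℂ × ℂ), ‖q‖ < 4 * r →
    ‖Ti s (Γ (s + q.1, 1 + q.2) - Θ (s + l, 1)) - (q.1 + l * q.2, q.2)‖ ≤ r / 1000
  hB : ∀ (s : ℝ) (q : ℂ × ℂ), ‖q‖ < 4 * r →
    ‖Ti s (Θ (s + l + q.1, 1 + q.2) - Θ (s + l, 1)) - q‖ ≤ r / 1000
  perΓ : ∀ z μ, Γ (z + T, μ) = Γ (z, μ)
  perΘ : ∀ z μ, Θ (z + T, μ) = Θ (z, μ)
  rev : ∀ z a b, Γ (z, a) = Θ (conj z + l, conj b) → Γ (-z, b) = Θ (-conj z + l, conj a)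

noncomputable def shear (l : ℝ) : ℂ × ℂ →L[ℂ] ℂ × ℂ :=
  (ContinuousLinearMap.fst ℂ ℂ ℂ + (l : ℂ) • ContinuousLinearMap.snd ℂ ℂ ℂ).prod
    (ContinuousLinearMap.snd ℂ ℂ ℂ)

@[simp] lemma shear_apply (l : ℝ) (q : ℂ × ℂ) : shear l q = (q.1 + l * q.2, q.2) := by
  simp [shear]

namespace Setup

variable (S : Setup)

noncomputable def FA (s : ℝ) (q : ℂ × ℂ) : ℂ × ℂ :=
  S.Ti s (S.Γ (s + q.1, 1 + q.2) - S.Θ (s + S.l, 1))

noncomputable def FB (s : ℝ) (q : ℂ × ℂ) : ℂ × ℂ :=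
  S.Ti s (S.Θ (s + S.l + q.1, 1 + q.2) - S.Θ (s + S.l, 1))

lemma hasFDerivAt_FA (s : ℝ) {q : ℂ × ℂ} (hq : ‖q‖ < 4 * S.r) :
    HasFDerivAt (S.FA s) ((S.Ti s).comp (fderiv ℂ S.Γ (s + q.1, 1 + q.2))) q := by
  have h1 : DifferentiableAt ℂ S.Γ (((s : ℂ), (1 : ℂ)) + q) := by
    refine S.hΓ _ ?_ ?_
    · simpa using ((abs_im_le_norm _).trans (norm_fst_le q)).trans_lt hq
    · simpa using (norm_snd_le q).trans_lt hq
  have h2 := (h1.hasFDerivAt.comp q ((hasFDerivAt_id q).const_add ((s : ℂ), (1 : ℂ)))).sub_const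
    (S.Θ (s + S.l, 1))
  have h3 := (S.Ti s).hasFDerivAt.comp q h2
  rw [ContinuousLinearMap.comp_id] at h3
  exact h3

lemma hasFDerivAt_FB (s : ℝ) {q : ℂ × ℂ} (hq : ‖q‖ < 4 * S.r) :
    HasFDerivAt (S.FB s) ((S.Ti s).comp (fderiv ℂ S.Θ (s + S.l + q.1, 1 + q.2))) q := by
  have h1 : DifferentiableAt ℂ S.Θ (((s + S.l : ℂ), (1 : ℂ)) + q) := by
    refine S.hΘ _ ?_ ?_
    · simpa using ((abs_im_le_norm _).trans (norm_fst_le q)).trans_lt hq
    · simpa using (norm_snd_le q).trans_lt hq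
  have h2 := (h1.hasFDerivAt.comp q
    ((hasFDerivAt_id q).const_add ((s + S.l : ℂ), (1 : ℂ)))).sub_const (S.Θ (s + S.l, 1))
  have h3 := (S.Ti s).hasFDerivAt.comp q h2
  rw [ContinuousLinearMap.comp_id] at h3
  exact h3

lemma kappa_le : 2 * (S.r / 1000) / (3 * S.r) ≤ 1 / 1000 := by
  have := S.hr
  rw [div_le_iff₀ (by positivity)]; linarith

lemma lipA (s : ℝ) {b : ℂ × ℂ} (hb : ‖b‖ ≤ S.r) :
    (∀ a : ℂ × ℂ, ‖a‖ ≤ S.r →
      ‖(S.FA s a - shear S.l a) - (S.FA s b - shear S.l b)‖ ≤ 1 / 1000 * ‖a - b‖) ∧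
    ‖(S.Ti s).comp (fderiv ℂ S.Γ (s + b.1, 1 + b.2)) - shear S.l‖ ≤ 1 / 1000 := by
  have hr := S.hr
  have hd : ∀ q : ℂ × ℂ, ‖q‖ < 4 * S.r → HasFDerivAt (fun q => S.FA s q - shear S.l q)
      ((S.Ti s).comp (fderiv ℂ S.Γ (s + q.1, 1 + q.2)) - shear S.l) q := fun q hq =>
    (S.hasFDerivAt_FA s hq).sub (shear S.l).hasFDerivAt
  have h := lip_of_small (f := fun q => S.FA s q - shear S.l q) hr
    (fun q hq => (hd q (mem_ball_zero_iff.mp hq)).differentiableAt.differentiableWithinAt)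
    (fun q hq => by simpa [FA] using S.hA s q hq) hb
  refine ⟨fun a ha => (h.1 a ha).trans ?_, ?_⟩
  · exact mul_le_mul_of_nonneg_right S.kappa_le (norm_nonneg _)
  · rw [← (hd b (by linarith)).fderiv]; exact h.2.trans S.kappa_le

lemma lipB (s : ℝ) {b : ℂ × ℂ} (hb : ‖b‖ ≤ S.r) :
    (∀ a : ℂ × ℂ, ‖a‖ ≤ S.r → ‖(S.FB s a - a) - (S.FB s b - b)‖ ≤ 1 / 1000 * ‖a - b‖) ∧
    ‖(S.Ti s).comp (fderiv ℂ S.Θ (s + S.l + b.1, 1 + b.2)) - ContinuousLinearMap.id ℂ _‖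
      ≤ 1 / 1000 := by
  have hr := S.hr
  have hd : ∀ q : ℂ × ℂ, ‖q‖ < 4 * S.r → HasFDerivAt (fun q => S.FB s q - q)
      ((S.Ti s).comp (fderiv ℂ S.Θ (s + S.l + q.1, 1 + q.2)) - ContinuousLinearMap.id ℂ _) q :=
    fun q hq => (S.hasFDerivAt_FB s hq).sub (hasFDerivAt_id q)
  have h := lip_of_small (f := fun q => S.FB s q - q) hr
    (fun q hq => (hd q (mem_ball_zero_iff.mp hq)).differentiableAt.differentiableWithinAt)
    (fun q hq => by simpa [FB] using S.hB s q hq) hb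
  refine ⟨fun a ha => (h.1 a ha).trans ?_, ?_⟩
  · exact mul_le_mul_of_nonneg_right S.kappa_le (norm_nonneg _)
  · rw [← (hd b (by linarith)).fderiv]; exact h.2.trans S.kappa_le

def Sol (s : ℝ) (W : ℂ × ℂ) : Prop :=
  ‖q1 S.l W‖ ≤ S.r / 2 ∧ ‖q2 S.l W‖ ≤ S.r / 2 ∧
    S.Γ (s + (q1 S.l W).1, 1 + (q1 S.l W).2) = S.Θ (s + S.l + (q2 S.l W).1, 1 + (q2 S.l W).2)

lemma exists_sol (s : ℝ) : ∃ W, S.Sol s W := by
  have hr := S.hr
  have hl : S.l ≠ 0 := by have := S.hl1; linarith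
  have hq : ∀ W : ℂ × ℂ, ‖W‖ ≤ S.r / 6 → ‖q1 S.l W‖ ≤ S.r / 2 ∧ ‖q2 S.l W‖ ≤ S.r / 2 := by
    intro W hW
    have := q_bounds S.hl1 S.hl2 W
    constructor <;> linarith [this.1, this.2]
  obtain ⟨W, hW, hfix⟩ := exists_fix (R := S.r / 6)
    (φ := fun W => (S.FB s (q2 S.l W) - q2 S.l W) - (S.FA s (q1 S.l W) - shear S.l (q1 S.l W)))
    (by linarith)
    (fun W hW => by
      have h1 := S.hA s (q1 S.l W) (by linarith [(hq W hW).1])
      have h2 := S.hB s (q2 S.l W) (by linarith [(hq W hW).2])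
      refine (norm_sub_le _ _).trans ?_
      simp only [FA, FB, shear_apply]
      linarith)
    (fun W W' hW hW' => by
      have h1 := (S.lipA s (b := q1 S.l W') (by linarith [(hq W' hW').1])).1 (q1 S.l W)
        (by linarith [(hq W hW).1])
      have h2 := (S.lipB s (b := q2 S.l W') (by linarith [(hq W' hW').2])).1 (q2 S.l W)
        (by linarith [(hq W hW).2])
      rw [q1_sub] at h1
      rw [q2_sub] at h2
      have h3 := q_bounds S.hl1 S.hl2 (W - W')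
      rw [sub_sub_sub_comm]
      refine (norm_sub_le _ _).trans ?_
      linarith [h3.1, h3.2, norm_nonneg (W - W')])
  refine ⟨W, (hq W hW).1, (hq W hW).2, ?_⟩
  have hid := q_id hl W
  rw [← shear_apply] at hid
  have h : S.FA s (q1 S.l W) = S.FB s (q2 S.l W) := by
    have : S.FB s (q2 S.l W) - S.FA s (q1 S.l W) + (shear S.l (q1 S.l W) - q2 S.l W) = W := by
      refine Eq.trans ?_ hfix; abel
    rw [hid] at this
    exact (sub_eq_zero.mp (add_eq_right.mp this)).symm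
  exact sub_left_injective (S.hTi s h)

lemma sol_eq {s : ℝ} {W : ℂ × ℂ} (h : S.Sol s W) (s' : ℝ) :
    S.FA s' ((((s - s' : ℝ) : ℂ), 0) + q1 S.l W) = S.FB s' ((((s - s' : ℝ) : ℂ), 0) + q2 S.l W) := by
  have h3 := h.2.2
  unfold FA FB
  simp only [Prod.fst_add, Prod.snd_add, zero_add]
  rw [show (s' : ℂ) + (((s - s' : ℝ) : ℂ) + (q1 S.l W).1) = s + (q1 S.l W).1 by push_cast; ring,
    show (s' : ℂ) + S.l + (((s - s' : ℝ) : ℂ) + (q2 S.l W).1) = s + S.l + (q2 S.l W).1 by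
      push_cast; ring, h3]

lemma sol_lip {s s' : ℝ} {W W' : ℂ × ℂ} (h : S.Sol s W) (h' : S.Sol s' W')
    (hs : |s - s'| ≤ S.r / 2) : ‖W - W'‖ ≤ |s - s'| := by
  have hl : S.l ≠ 0 := by have := S.hl1; linarith
  have hr := S.hr
  set e : ℂ × ℂ := (((s - s' : ℝ) : ℂ), 0) with he
  have hen : ‖e‖ = |s - s'| := by
    rw [he, Prod.norm_def, norm_real, Real.norm_eq_abs, norm_zero]
    exact max_eq_left (abs_nonneg _)
  have e1 := S.sol_eq h s'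
  have e2 := S.sol_eq h' s'
  rw [← he] at e1
  simp only [sub_self, ofReal_zero, Prod.mk_zero_zero, zero_add] at e2
  have n1 : ‖e + q1 S.l W‖ ≤ S.r := by linarith [norm_add_le e (q1 S.l W), h.1]
  have n2 : ‖e + q2 S.l W‖ ≤ S.r := by linarith [norm_add_le e (q2 S.l W), h.2.1]
  have h1 := (S.lipA s' (b := q1 S.l W') (by linarith [h'.1])).1 _ n1
  have h2 := (S.lipB s' (b := q2 S.l W') (by linarith [h'.2.1])).1 _ n2
  rw [add_sub_assoc, q1_sub] at h1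
  rw [add_sub_assoc, q2_sub] at h2
  have h3 := q_bounds S.hl1 S.hl2 (W - W')
  have i1 := q_id hl W
  have i2 := q_id hl W'
  rw [← shear_apply] at i1 i2
  have hse : shear S.l e = e := by simp [he]
  have key : W - W' = (S.FB s' (e + q2 S.l W) - (e + q2 S.l W) - (S.FB s' (q2 S.l W') - q2 S.l W'))
      - (S.FA s' (e + q1 S.l W) - shear S.l (e + q1 S.l W) -
        (S.FA s' (q1 S.l W') - shear S.l (q1 S.l W'))) := by
    rw [e1, e2, map_add, hse]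
    conv_lhs => rw [← i1, ← i2]
    abel
  have h4 := norm_sub_le
    (S.FB s' (e + q2 S.l W) - (e + q2 S.l W) - (S.FB s' (q2 S.l W') - q2 S.l W'))
    (S.FA s' (e + q1 S.l W) - shear S.l (e + q1 S.l W) -
        (S.FA s' (q1 S.l W') - shear S.l (q1 S.l W')))
  rw [← key] at h4
  have h5 := norm_add_le e (q1 S.l (W - W'))
  have h6 := norm_add_le e (q2 S.l (W - W'))
  linarith [h3.1, h3.2, norm_nonneg (W - W'), abs_nonneg (s - s')]

lemma sol_unique {s : ℝ} {W W' : ℂ × ℂ} (h : S.Sol s W) (h' : S.Sol s W') : W = W' := by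
  have := S.sol_lip h h' (by have := S.hr; simp; linarith)
  simpa [sub_eq_zero] using this

lemma sol_per {W : ℂ × ℂ} (h : S.Sol 0 W) : S.Sol S.T W := by
  refine ⟨h.1, h.2.1, ?_⟩
  have h3 := h.2.2
  rw [show (S.T : ℂ) + (q1 S.l W).1 = (((0 : ℝ) : ℂ) + (q1 S.l W).1) + S.T by push_cast; ring,
    show (S.T : ℂ) + S.l + (q2 S.l W).1 = (((0 : ℝ) : ℂ) + S.l + (q2 S.l W).1) + S.T by
      push_cast; ring, S.perΓ, S.perΘ, h3]

lemma sol_zero {W : ℂ × ℂ} (h : S.Sol 0 W) : W.2.re = 0 := by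
  have hl : S.l ≠ 0 := by have := S.hl1; linarith
  set W' : ℂ × ℂ := (⟨W.1.re - S.l * W.2.re, -W.1.im + S.l * W.2.im⟩, ⟨-W.2.re, W.2.im⟩) with hW'
  have a1 : q1 S.l W' = ((q2 S.l W).1, conj (q2 S.l W).2) := by
    ext <;> apply Complex.ext <;> simp [q1, q2, hW'] <;> field_simp <;> ring
  have a2 : q2 S.l W' = ((q1 S.l W).1, conj (q1 S.l W).2) := by
    ext <;> apply Complex.ext <;> simp [q1, q2, hW'] <;> field_simp <;> ring
  have h' : S.Sol 0 W' := by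
    refine ⟨?_, ?_, ?_⟩
    · rw [a1, Prod.norm_def, norm_conj]; exact h.2.1
    · rw [a2, Prod.norm_def, norm_conj]; exact h.1
    · have c1 : conj (q1 S.l W).1 = (q2 S.l W).1 := by apply Complex.ext <;> simp [q1, q2]
      have c2 : -(q1 S.l W).1 = (q2 S.l W).1 := by apply Complex.ext <;> simp [q1, q2]
      have h3 := h.2.2
      have := S.rev (q1 S.l W).1 (1 + (q1 S.l W).2) (1 + conj (q2 S.l W).2) (by
        rw [c1]; simpa [add_comm] using h3)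
      rw [a1, a2]
      rw [c1, c2, ← c2, neg_neg, c2] at this
      simpa [add_comm] using this
  have := congrArg (fun x : ℂ × ℂ => x.2.re) (S.sol_unique h h')
  simp only [hW'] at this
  linarith

end Setup

end Pool.Agent.P.MP_c8d52e_an
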