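import Pool.Agent.P.MP_c8d52e_an.Core2

/-! The derivative of the reduced function at a zero, and the abstract existence theorem. -/

namespace Pool.Agent.P.MP_c8d52e_an

open Complex ComplexConjugate Metric Set Filter Topology Asymptotics

lemma key_identity (α β γ δ v1 v2 E1 E2 : ℂ) (g t : ℝ)
    (hD : ‖α * δ - β * γ‖ = 1)
    (ht : (t : ℂ) = conj α * α + conj β * γ + conj γ * β + conj δ * δ)
    (h1 : E1 = α * v1 + β * v2 - conj v1) (h2 : E2 = γ * v1 + δ * v2 - (conj v2 + g)) :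
    (2 - t) * v1.re + (β * conj (α * δ - β * γ) + conj β * (1 + δ) + conj α * β).re * g =
      ((conj γ * β + conj δ * δ - 1) * (conj α * E1 + conj β * E2 + conj E1) -
        (conj α * β + conj β * δ) * (conj γ * E1 + conj δ * E2 + conj E2)).re := by
  have hD2 : (α * δ - β * γ) * conj (α * δ - β * γ) = 1 := by
    rw [mul_conj, normSq_eq_norm_sq, hD]; simp
  have h : ((2 - t : ℝ) : ℂ) * v1 +
      (β * conj (α * δ - β * γ) + conj β * (1 + δ) + conj α * β) * (g : ℂ) =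
      ((conj γ * β + conj δ * δ - 1) * (conj α * E1 + conj β * E2 + conj E1) -
        (conj α * β + conj β * δ) * (conj γ * E1 + conj δ * E2 + conj E2)) := by
    rw [h1, h2]
    simp only [map_sub, map_add, map_mul, conj_conj, conj_ofReal] at hD2 ⊢
    push_cast
    rw [ht]
    linear_combination (-v1) * hD2
  rw [← h, add_re (((2 - t : ℝ) : ℂ) * v1), re_ofReal_mul, re_mul_ofReal]

namespace Setup

variable (S : Setup)

noncomputable def W (s : ℝ) : ℂ × ℂ := (S.exists_sol s).choose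

lemma W_sol (s : ℝ) : S.Sol s (S.W s) := (S.exists_sol s).choose_spec

lemma W_lip (s0 : ℝ) : ∀ᶠ s in 𝓝 s0, ‖S.W s - S.W s0‖ ≤ |s - s0| := by
  have hr := S.hr
  filter_upwards [Metric.closedBall_mem_nhds s0 (by linarith : 0 < S.r / 2)] with s hs
  exact S.sol_lip (S.W_sol s) (S.W_sol s0) (by simpa [Real.dist_eq] using hs)

lemma W_isBigO (s0 : ℝ) : (fun s => S.W s - S.W s0) =O[𝓝 s0] fun s => s - s0 :=
  IsBigO.of_bound' (by simpa using S.W_lip s0)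

lemma W_continuous : Continuous S.W := by
  refine continuous_iff_continuousAt.mpr fun s0 => ?_
  have h := (S.W_isBigO s0).trans_tendsto (tendsto_sub_nhds_zero_iff.mpr tendsto_id)
  exact tendsto_sub_nhds_zero_iff.mp h

noncomputable def gam (s : ℝ) : ℝ := -(S.W s).2.re

lemma gam_continuous : Continuous S.gam := by
  have := S.W_continuous
  unfold gam; fun_prop

lemma gam_zero : S.gam 0 = 0 := by simp [gam, S.sol_zero (S.W_sol 0)]

lemma gam_T : S.gam S.T = 0 := by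
  have := S.sol_unique (S.W_sol S.T) (S.sol_per (S.W_sol 0))
  simp [gam, this, S.sol_zero (S.W_sol 0)]

lemma q2_eq (W : ℂ × ℂ) :
    q2 S.l W = (conj (q1 S.l W).1, conj (q1 S.l W).2 + ((-W.2.re : ℝ) : ℂ)) := by
  ext <;> apply Complex.ext <;> simp [q1, q2]
  ring

lemma hasDerivAt_gam {s0 : ℝ} (h0 : S.gam s0 = 0) {α β γ δ : ℂ} {t : ℝ}
    (hM : ∀ v : ℂ × ℂ, fderiv ℂ S.Θ (s0 + S.l + (q2 S.l (S.W s0)).1, 1 + (q2 S.l (S.W s0)).2)
      (α * v.1 + β * v.2, γ * v.1 + δ * v.2) =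
      fderiv ℂ S.Γ (s0 + (q1 S.l (S.W s0)).1, 1 + (q1 S.l (S.W s0)).2) v)
    (hD : ‖α * δ - β * γ‖ = 1)
    (ht : (t : ℂ) = conj α * α + conj β * γ + conj γ * β + conj δ * δ) :
    -2 ≤ t ∧ ∃ ρ : ℝ, 0 < ρ ∧ HasDerivAt S.gam ((t - 2) / ρ) s0 := by
  have hr := S.hr
  have hs0 := S.W_sol s0
  set A := (S.Ti s0).comp (fderiv ℂ S.Γ (s0 + (q1 S.l (S.W s0)).1, 1 + (q1 S.l (S.W s0)).2)) with hA
  set B := (S.Ti s0).comp
    (fderiv ℂ S.Θ (s0 + S.l + (q2 S.l (S.W s0)).1, 1 + (q2 S.l (S.W s0)).2)) with hB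
  have hAB : ∀ v : ℂ × ℂ, B (α * v.1 + β * v.2, γ * v.1 + δ * v.2) = A v := fun v => by
    simp only [hA, hB, ContinuousLinearMap.comp_apply, hM v]
  have nA : ‖A - shear S.l‖ ≤ 1 / 1000 := (S.lipA s0 (by linarith [hs0.1])).2
  have nB : ‖B - ContinuousLinearMap.id ℂ _‖ ≤ 1 / 1000 := (S.lipB s0 (by linarith [hs0.2.1])).2
  have hl : ‖(S.l : ℂ)‖ ≤ 2 := by
    rw [norm_real, Real.norm_eq_abs, abs_of_pos (by linarith [S.hl1])]; exact S.hl2
  have c1 : ‖((α, γ) : ℂ × ℂ) - (1, 0)‖ ≤ 1 / 100 :=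
    close_of_comp (w := (1, 0)) nA nB (by simpa using hAB (1, 0)) (by simp) (by simp) (by simp)
  have c2 : ‖((β, δ) : ℂ × ℂ) - ((S.l : ℂ), (1 : ℂ))‖ ≤ 1 / 100 :=
    close_of_comp (w := (0, 1)) nA nB (by simpa using hAB (0, 1)) (by simp) (by simp)
      (norm_prod_le_iff.mpr ⟨hl, by simp⟩)
  have ca : ‖α - 1‖ ≤ 1 / 100 := (norm_prod_le_iff.mp c1).1
  have cg : ‖γ‖ ≤ 1 / 100 := by simpa using (norm_prod_le_iff.mp c1).2
  have cb : ‖β - S.l‖ ≤ 1 / 100 := (norm_prod_le_iff.mp c2).1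
  have cd : ‖δ - 1‖ ≤ 1 / 100 := (norm_prod_le_iff.mp c2).2
  have hρ := rho_pos S.hl1 S.hl2 ca cb cd hD
  set ρ := (β * conj (α * δ - β * γ) + conj β * (1 + δ) + conj α * β).re with hρdef
  refine ⟨?_, ρ, hρ, ?_⟩
  · have hβ : ‖β‖ ≤ 3 := by
      have := norm_add_le (β - S.l) S.l
      rw [sub_add_cancel] at this
      linarith
    have e := congrArg Complex.re ht
    simp only [ofReal_re, add_re, ← normSq_eq_conj_mul_self] at e
    have n1 : ‖conj β * γ‖ ≤ 3 * (1 / 100) := by rw [norm_mul, norm_conj]; gcongr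
    have n2 : ‖conj γ * β‖ ≤ (1 / 100) * 3 := by rw [norm_mul, norm_conj]; gcongr
    have := neg_abs_le (conj β * γ).re
    have := neg_abs_le (conj γ * β).re
    have := abs_re_le_norm (conj β * γ)
    have := abs_re_le_norm (conj γ * β)
    have := normSq_nonneg α
    have := normSq_nonneg δ
    linarith
  set F1 : ℝ → ℂ × ℂ := fun s => (((s - s0 : ℝ) : ℂ), 0) + q1 S.l (S.W s) with hF1
  set F2 : ℝ → ℂ × ℂ := fun s => (((s - s0 : ℝ) : ℂ), 0) + q2 S.l (S.W s) with hF2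
  have hF10 : F1 s0 = q1 S.l (S.W s0) := by simp [hF1]
  have hF20 : F2 s0 = q2 S.l (S.W s0) := by simp [hF2]
  have hen : ∀ s : ℝ, ‖((((s - s0 : ℝ) : ℂ), 0) : ℂ × ℂ)‖ = |s - s0| := fun s => by
    rw [Prod.norm_def, norm_real, Real.norm_eq_abs, norm_zero]
    exact max_eq_left (abs_nonneg _)
  have O1 : (fun s => F1 s - q1 S.l (S.W s0)) =O[𝓝 s0] fun s => s - s0 := by
    refine IsBigO.of_bound 4 ?_
    filter_upwards [S.W_lip s0] with s hs
    simp only [hF1]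
    rw [add_sub_assoc, q1_sub]
    refine (norm_add_le _ _).trans ?_
    rw [hen, Real.norm_eq_abs]
    linarith [(q_bounds S.hl1 S.hl2 (S.W s - S.W s0)).1]
  have O2 : (fun s => F2 s - q2 S.l (S.W s0)) =O[𝓝 s0] fun s => s - s0 := by
    refine IsBigO.of_bound 4 ?_
    filter_upwards [S.W_lip s0] with s hs
    simp only [hF2]
    rw [add_sub_assoc, q2_sub]
    refine (norm_add_le _ _).trans ?_
    rw [hen, Real.norm_eq_abs]
    linarith [(q_bounds S.hl1 S.hl2 (S.W s - S.W s0)).2]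
  have T0 : Tendsto (fun s : ℝ => s - s0) (𝓝 s0) (𝓝 0) := tendsto_sub_nhds_zero_iff.mpr tendsto_id
  have T1 : Tendsto F1 (𝓝 s0) (𝓝 (q1 S.l (S.W s0))) :=
    tendsto_sub_nhds_zero_iff.mp (O1.trans_tendsto T0)
  have T2 : Tendsto F2 (𝓝 s0) (𝓝 (q2 S.l (S.W s0))) :=
    tendsto_sub_nhds_zero_iff.mp (O2.trans_tendsto T0)
  have o1 := ((S.hasFDerivAt_FA s0 (q := q1 S.l (S.W s0))
    (by linarith [hs0.1])).isLittleO.comp_tendsto T1).trans_isBigO O1
  have o2 := ((S.hasFDerivAt_FB s0 (q := q2 S.l (S.W s0))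
    (by linarith [hs0.2.1])).isLittleO.comp_tendsto T2).trans_isBigO O2
  set E : ℝ → ℂ × ℂ := fun s =>
    (α * (F1 s - q1 S.l (S.W s0)).1 + β * (F1 s - q1 S.l (S.W s0)).2,
      γ * (F1 s - q1 S.l (S.W s0)).1 + δ * (F1 s - q1 S.l (S.W s0)).2) -
      (F2 s - q2 S.l (S.W s0)) with hE
  have e0 : S.FA s0 (q1 S.l (S.W s0)) = S.FB s0 (q2 S.l (S.W s0)) := by
    have := S.sol_eq hs0 s0
    simpa only [sub_self, ofReal_zero, Prod.mk_zero_zero, zero_add] using this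
  have o3 : (fun s => B (E s)) =o[𝓝 s0] fun s => s - s0 := by
    refine (o2.sub o1).congr_left fun s => ?_
    have es : S.FA s0 (F1 s) = S.FB s0 (F2 s) := S.sol_eq (S.W_sol s) s0
    simp only [Function.comp, hE, map_sub B, hAB, es, e0, ← hA, ← hB]
    abel
  have o4 : E =o[𝓝 s0] fun s => s - s0 := by
    refine IsBigO.trans_isLittleO (IsBigO.of_bound 2 (Eventually.of_forall fun s => ?_)) o3
    have := (B - ContinuousLinearMap.id ℂ _).le_opNorm (E s)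
    rw [sub_apply, ContinuousLinearMap.id_apply] at this
    have h2 := norm_sub_norm_le (E s) (B (E s))
    rw [norm_sub_rev (E s)] at h2
    nlinarith [norm_nonneg (E s)]
  have oE1 : (fun s => (E s).1) =o[𝓝 s0] fun s => s - s0 :=
    (IsBigO.of_bound' (Eventually.of_forall fun s => norm_fst_le (E s))).trans_isLittleO o4
  have oE2 : (fun s => (E s).2) =o[𝓝 s0] fun s => s - s0 :=
    (IsBigO.of_bound' (Eventually.of_forall fun s => norm_snd_le (E s))).trans_isLittleO o4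
  have oC1 : (fun s => conj (E s).1) =o[𝓝 s0] fun s => s - s0 :=
    (IsBigO.of_bound' (Eventually.of_forall fun s => (norm_conj (E s).1).le)).trans_isLittleO oE1
  have oC2 : (fun s => conj (E s).2) =o[𝓝 s0] fun s => s - s0 :=
    (IsBigO.of_bound' (Eventually.of_forall fun s => (norm_conj (E s).2).le)).trans_isLittleO oE2
  have oL := ((((oE1.const_mul_left (conj α)).add (oE2.const_mul_left (conj β))).add
    oC1).const_mul_left (conj γ * β + conj δ * δ - 1)).sub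
    ((((oE1.const_mul_left (conj γ)).add (oE2.const_mul_left (conj δ))).add
    oC2).const_mul_left (conj α * β + conj β * δ))
  have oR := ((IsBigO.of_bound' (Eventually.of_forall fun s => (abs_re_le_norm _))).trans_isLittleO
    oL).const_mul_left ρ⁻¹
  rw [hasDerivAt_iff_isLittleO]
  refine oR.congr_left fun s => ?_
  have hg0 : (S.W s0).2.re = 0 := by simpa [gam] using h0
  have k := key_identity α β γ δ (F1 s - q1 S.l (S.W s0)).1 (F1 s - q1 S.l (S.W s0)).2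
    (E s).1 (E s).2 (S.gam s) t hD ht
    (by simp [hE, hF1, hF2, S.q2_eq]) (by simp [hE, hF1, hF2, S.q2_eq, gam, hg0]; ring)
  rw [← k, h0, ← hρdef]
  have : (F1 s - q1 S.l (S.W s0)).1.re = s - s0 := by simp [hF1, q1]
  rw [this, smul_eq_mul]
  field_simp
  ring

theorem core (t : ℂ × ℂ → ℝ)
    (hnd : ∀ z μ : ℂ, |z.im| ≤ S.r → ‖μ - 1‖ ≤ S.r → S.Γ (z, μ) = S.Θ (conj z + S.l, conj μ) →
      t (z, μ) ≠ 2 ∧ ∃ α β γ δ : ℂ,
        (∀ v : ℂ × ℂ, fderiv ℂ S.Θ (conj z + S.l, conj μ) (α * v.1 + β * v.2, γ * v.1 + δ * v.2) =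
          fderiv ℂ S.Γ (z, μ) v) ∧ ‖α * δ - β * γ‖ = 1 ∧
        (t (z, μ) : ℂ) = conj α * α + conj β * γ + conj γ * β + conj δ * δ) :
    (∃ z μ : ℂ, |z.im| ≤ S.r ∧ ‖μ - 1‖ ≤ S.r ∧ S.Γ (z, μ) = S.Θ (conj z + S.l, conj μ) ∧
      2 < t (z, μ)) ∧
    (∃ z μ : ℂ, |z.im| ≤ S.r ∧ ‖μ - 1‖ ≤ S.r ∧ S.Γ (z, μ) = S.Θ (conj z + S.l, conj μ) ∧
      -2 ≤ t (z, μ) ∧ t (z, μ) < 2) := by
  have hr := S.hr
  have key : ∀ s, S.gam s = 0 → ∃ z μ : ℂ, |z.im| ≤ S.r ∧ ‖μ - 1‖ ≤ S.r ∧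
      S.Γ (z, μ) = S.Θ (conj z + S.l, conj μ) ∧ t (z, μ) ≠ 2 ∧ -2 ≤ t (z, μ) ∧
      ∃ ρ : ℝ, 0 < ρ ∧ HasDerivAt S.gam ((t (z, μ) - 2) / ρ) s := by
    intro s hs
    have hsol := S.W_sol s
    have hg0 : (S.W s).2.re = 0 := by simpa [gam] using hs
    have hc : ((conj ((s : ℂ) + (q1 S.l (S.W s)).1) + S.l, conj (1 + (q1 S.l (S.W s)).2)) : ℂ × ℂ) =
        (s + S.l + (q2 S.l (S.W s)).1, 1 + (q2 S.l (S.W s)).2) := by
      rw [S.q2_eq, hg0]; simp; ring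
    have b1 : |((s : ℂ) + (q1 S.l (S.W s)).1).im| ≤ S.r := by
      have := (abs_im_le_norm _).trans (norm_fst_le (q1 S.l (S.W s)))
      simp only [add_im, ofReal_im, zero_add]
      linarith [hsol.1]
    have b2 : ‖1 + (q1 S.l (S.W s)).2 - 1‖ ≤ S.r := by
      have := norm_snd_le (q1 S.l (S.W s))
      rw [add_sub_cancel_left]
      linarith [hsol.1]
    have b3 : S.Γ ((s : ℂ) + (q1 S.l (S.W s)).1, 1 + (q1 S.l (S.W s)).2) =
        S.Θ (conj ((s : ℂ) + (q1 S.l (S.W s)).1) + S.l, conj (1 + (q1 S.l (S.W s)).2)) := by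
      rw [hc]; exact hsol.2.2
    obtain ⟨h2, α, β, γ, δ, hM, hD, ht⟩ := hnd _ _ b1 b2 b3
    rw [hc] at hM
    obtain ⟨h3, h4⟩ := S.hasDerivAt_gam hs hM hD ht
    exact ⟨_, _, b1, b2, b3, h2, h3, h4⟩
  have hd : ∀ s, S.gam s = 0 → HasDerivAt S.gam (deriv S.gam s) s ∧ deriv S.gam s ≠ 0 := by
    intro s hs
    obtain ⟨z, μ, -, -, -, h2, -, ρ, hρ, h⟩ := key s hs
    refine ⟨h.differentiableAt.hasDerivAt, ?_⟩
    rw [h.deriv]
    exact div_ne_zero (sub_ne_zero.mpr h2) hρ.ne'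
  constructor
  · obtain ⟨s, hs, hneg⟩ := exists_neg_deriv (g := fun s => -S.gam s) (d := fun s => -deriv S.gam s)
      S.hT S.gam_continuous.neg (by simp [S.gam_zero]) (by simp [S.gam_T])
      (fun s hs => ⟨(hd s (neg_eq_zero.mp hs)).1.neg, neg_ne_zero.mpr (hd s (neg_eq_zero.mp hs)).2⟩)
    obtain ⟨z, μ, b1, b2, b3, -, -, ρ, hρ, h⟩ := key s (neg_eq_zero.mp hs)
    refine ⟨z, μ, b1, b2, b3, ?_⟩
    rw [h.deriv, neg_lt_zero, div_pos_iff_of_pos_right hρ] at hneg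
    linarith
  · obtain ⟨s, hs, hneg⟩ := exists_neg_deriv S.hT S.gam_continuous S.gam_zero S.gam_T hd
    obtain ⟨z, μ, b1, b2, b3, -, h3, ρ, hρ, h⟩ := key s hs
    refine ⟨z, μ, b1, b2, b3, h3, ?_⟩
    rw [h.deriv, div_neg_iff] at hneg
    rcases hneg with h | h <;> linarith [h.1, h.2]

end Setup

end Pool.Agent.P.MP_c8d52e_an
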