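import Pool.Agent.P.MP_c8d52e_an.Algebra

/-! Multipliers of a cycle from the trace of a multiple of its period. -/

namespace Pool.Agent.P.MP_c8d52e_an

open Complex ComplexConjugate Matrix Polynomial

lemma charpoly_toL (A : Matrix (Fin 2) (Fin 2) ℂ) :
    (toL A).toLinearMap.charpoly = A.charpoly := by
  rw [← LinearMap.charpoly_toMatrix _ (Module.Basis.finTwoProd ℂ)]
  congr 1
  ext i k
  fin_cases i <;> fin_cases k <;> simp [LinearMap.toMatrix_apply]

lemma exists_eigen (A : Matrix (Fin 2) (Fin 2) ℂ) : ∃ a b : ℂ, a + b = A.trace ∧ a * b = A.det := by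
  obtain ⟨s, hs⟩ := IsAlgClosed.exists_pow_nat_eq (A.trace ^ 2 - 4 * A.det) (by norm_num : 0 < 2)
  refine ⟨(A.trace + s) / 2, (A.trace - s) / 2, by ring, ?_⟩
  linear_combination (-1 / 4) * hs

lemma roots_toL {A : Matrix (Fin 2) (Fin 2) ℂ} {a b : ℂ} (h1 : a + b = A.trace)
    (h2 : a * b = A.det) : (toL A).toLinearMap.charpoly.roots = {a, b} := by
  have : A.charpoly = (X - C a) * (X - C b) := by
    rw [Matrix.charpoly_fin_two, ← h1, ← h2, C_add, C_mul]; ring
  rw [charpoly_toL, this, roots_mul (mul_ne_zero (X_sub_C_ne_zero a) (X_sub_C_ne_zero b)),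
    roots_X_sub_C, roots_X_sub_C]
  rfl

lemma trace_pow_two_step (A B : Matrix (Fin 2) (Fin 2) ℂ) :
    (A * (A * B)).trace = A.trace * (A * B).trace - A.det * B.trace := by
  simp only [Matrix.trace_fin_two, Matrix.det_fin_two, Matrix.mul_apply, Fin.sum_univ_two]
  ring

lemma trace_pow {A : Matrix (Fin 2) (Fin 2) ℂ} {a b : ℂ} (h1 : a + b = A.trace)
    (h2 : a * b = A.det) (k : ℕ) : (A ^ k).trace = a ^ k + b ^ k := by
  have : ∀ k : ℕ, (A ^ k).trace = a ^ k + b ^ k ∧ (A ^ (k + 1)).trace = a ^ (k + 1) + b ^ (k + 1) := by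
    intro k
    induction k with
    | zero => exact ⟨by simp; norm_num, by simp [h1]⟩
    | succ k ih =>
      refine ⟨ih.2, ?_⟩
      rw [pow_succ' A, pow_succ' A, trace_pow_two_step, ← pow_succ' A, ih.1, ih.2, ← h1, ← h2]
      ring
  exact (this k).1

lemma Jac_mul {n : ℕ} {p : ℂ × ℂ} (hp : henon^[n] p = p) (k : ℕ) :
    Jac (n * k) p = Jac n p ^ k := by
  induction k with
  | zero => rfl
  | succ k ih => rw [Nat.mul_succ, Jac_add, hp, ih, pow_succ]

lemma norm_eq_one_iff_of {μ ν : ℂ} {T : ℝ} (h1 : μ + ν = T) (h2 : μ * ν = 1) :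
    (2 < T → ‖μ‖ ≠ 1) ∧ (-2 ≤ T → T ≤ 2 → ‖μ‖ = 1) := by
  have hn : ‖μ‖ * ‖ν‖ = 1 := by rw [← norm_mul, h2, norm_one]
  constructor
  · intro hT h
    rw [h, one_mul] at hn
    have := norm_add_le μ ν
    rw [h1, h, hn, norm_real, Real.norm_eq_abs] at this
    linarith [le_abs_self T]
  · intro hT1 hT2
    have e : μ ^ 2 - T * μ + 1 = 0 := by rw [← h1]; linear_combination -h2
    have e1 := congrArg Complex.re e
    have e2 := congrArg Complex.im e
    simp [sq] at e1 e2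
    have hs : ‖μ‖ ^ 2 = 1 := by
      rw [← normSq_eq_norm_sq, normSq_apply]
      have e3 : μ.im * (2 * μ.re - T) = 0 := by linarith
      rcases mul_eq_zero.mp e3 with h | h
      · rw [h] at e1 ⊢
        have h3 : (2 * μ.re - T) ^ 2 = T ^ 2 - 4 := by nlinarith
        have h4 : T ^ 2 - 4 ≤ 0 := by nlinarith
        have h5 : 2 * μ.re - T = 0 := by nlinarith [sq_nonneg (2 * μ.re - T)]
        nlinarith
      · have : T = 2 * μ.re := by linarith
        rw [this] at e1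
        linarith
    exact (pow_eq_one_iff_of_nonneg (norm_nonneg _) (by norm_num)).mp hs

lemma multipliers {p : ℂ × ℂ} {N : ℕ} (hN : 0 < N) (hev : Even N) (hp : henon^[N] p = p) {T : ℝ}
    (hT : (Jac N p).trace = T) :
    (2 < T → ∃ a b : ℂ, (fderiv ℂ (henon^[Function.minimalPeriod henon p]) p).toLinearMap.charpoly.roots
      = {a, b} ∧ ‖a‖ < 1 ∧ 1 < ‖b‖) ∧
    (-2 ≤ T → T ≤ 2 →
      ∃ a b : ℂ, (fderiv ℂ (henon^[Function.minimalPeriod henon p]) p).toLinearMap.charpoly.roots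
      = {a, b} ∧ ‖a‖ = 1 ∧ ‖b‖ = 1) := by
  set n := Function.minimalPeriod henon p with hn
  have hpn : henon^[n] p = p := Function.iterate_minimalPeriod
  obtain ⟨k, hk⟩ : n ∣ N := Function.IsPeriodicPt.minimalPeriod_dvd hp
  have hk0 : k ≠ 0 := by rintro rfl; omega
  rw [(hasFDerivAt_iter n p).fderiv]
  obtain ⟨a, b, h1, h2⟩ := exists_eigen (Jac n p)
  have hJ : Jac N p = Jac n p ^ k := by rw [hk, Jac_mul hpn]
  have e1 : a ^ k + b ^ k = T := by rw [← trace_pow h1 h2, ← hJ, hT]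
  have e2 : a ^ k * b ^ k = 1 := by
    rw [← mul_pow, h2, ← det_pow, ← hJ, Jac_det, hev.neg_one_pow]
  have e3 : ‖a‖ * ‖b‖ = 1 := by rw [← norm_mul, h2, Jac_det, norm_pow, norm_neg, norm_one, one_pow]
  have h := norm_eq_one_iff_of e1 e2
  have ha0 := norm_nonneg a
  have hb0 := norm_nonneg b
  constructor
  · intro hT2
    have hne : ‖a‖ ≠ 1 := fun h' => h.1 hT2 (by rw [norm_pow, h', one_pow])
    rcases lt_or_gt_of_ne hne with h' | h'
    · exact ⟨a, b, roots_toL h1 h2, h', by nlinarith⟩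
    · exact ⟨b, a, roots_toL (by rw [add_comm, h1]) (by rw [mul_comm, h2]), by nlinarith, h'⟩
  · intro hT1 hT2
    have h3 := h.2 hT1 hT2
    rw [norm_pow] at h3
    have h4 : ‖a‖ = 1 := (pow_eq_one_iff_of_nonneg ha0 hk0).mp h3
    exact ⟨a, b, roots_toL h1 h2, h4, by rw [h4, one_mul] at e3; exact e3⟩

lemma trace_cube {A : Matrix (Fin 2) (Fin 2) ℂ} (h : A.det = 1) :
    (A ^ 3).trace = A.trace ^ 3 - 3 * A.trace := by
  obtain ⟨a, b, h1, h2⟩ := exists_eigen A
  rw [trace_pow h1 h2, ← h1]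
  rw [h] at h2
  linear_combination (-3 * (a + b)) * h2

end Pool.Agent.P.MP_c8d52e_an
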