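import Pool.Agent.P.MP_c8d52e_an.Orbit

/-! Orbits of the map shadow the trajectories of the vector field. -/

namespace Pool.Agent.P.MP_c8d52e_an

open Complex ComplexConjugate Metric Set Filter Topology Asymptotics

def henon (p : ℂ × ℂ) : ℂ × ℂ := (p.2, p.1 + p.2 ^ 2)

lemma ball_sub_strip {ζ : ℂ} (hζ : |ζ.im| ≤ 1 / 4) {a : ℂ} (ha : ‖a‖ < 1 / 4) :
    |(ζ + a).im| < 1 / 2 := by
  have h1 := abs_im_le_norm a
  have h2 := abs_add_le ζ.im a.im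
  rw [add_im]; linarith

lemma tay0 {g : ℂ → ℂ} {M : ℝ} (hg : ∀ z : ℂ, |z.im| < 1 / 2 → DifferentiableAt ℂ g z ∧ ‖g z‖ ≤ M)
    {ζ : ℂ} (hζ : |ζ.im| ≤ 1 / 4) {a : ℂ} (ha : ‖a‖ < 1 / 4) : ‖g (ζ + a) - g ζ‖ ≤ 8 * M * ‖a‖ := by
  have hd : DifferentiableOn ℂ (fun a => g (ζ + a)) (ball 0 (1 / 4)) := fun a ha =>
    ((hg _ (ball_sub_strip hζ (mem_ball_zero_iff.mp ha))).1.comp a
      (by fun_prop)).differentiableWithinAt
  have hm : MapsTo (fun a => g (ζ + a)) (ball 0 (1 / 4)) (closedBall (g (ζ + 0)) (2 * M)) := by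
    intro a ha
    rw [mem_closedBall, dist_eq_norm]
    have h1 := (hg _ (ball_sub_strip hζ (mem_ball_zero_iff.mp ha))).2
    have h2 := (hg _ (ball_sub_strip hζ (a := 0) (by simp))).2
    have := norm_sub_le (g (ζ + a)) (g (ζ + 0))
    linarith
  have := dist_le_div_mul_dist_of_mapsTo_ball hd hm (mem_ball_zero_iff.mpr ha)
  rw [dist_eq_norm, dist_zero_right, add_zero] at this
  linarith

lemma tay1 {g : ℂ → ℂ} {M : ℝ} (hM : 1 ≤ M)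
    (hg : ∀ z : ℂ, |z.im| < 1 / 2 → DifferentiableAt ℂ g z ∧ ‖g z‖ ≤ M)
    {ζ c : ℂ} (hζ : |ζ.im| ≤ 1 / 4) (hc : HasDerivAt g c ζ) (hcM : ‖c‖ ≤ M ^ 2)
    {a : ℂ} (ha : ‖a‖ < 1 / 4) : ‖g (ζ + a) - g ζ - a * c‖ ≤ 36 * M ^ 2 * ‖a‖ ^ 2 := by
  have hd : DifferentiableOn ℂ (fun a => g (ζ + a) - a * c) (ball 0 (1 / 4)) := fun a ha =>
    (((hg _ (ball_sub_strip hζ (mem_ball_zero_iff.mp ha))).1.comp a
      (by fun_prop)).sub (by fun_prop)).differentiableWithinAt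
  have hm : MapsTo (fun a => g (ζ + a) - a * c) (ball 0 (1 / 4))
      (closedBall (g (ζ + 0) - 0 * c) (9 / 4 * M ^ 2)) := by
    intro a ha
    rw [mem_closedBall, dist_eq_norm]
    have ha' := mem_ball_zero_iff.mp ha
    have h1 := (hg _ (ball_sub_strip hζ ha')).2
    have h2 := (hg _ (ball_sub_strip hζ (a := 0) (by simp))).2
    have h3 := norm_sub_le (g (ζ + a)) (g (ζ + 0))
    have h4 := norm_sub_le (g (ζ + a) - g (ζ + 0)) (a * c)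
    have h5 : ‖a * c‖ ≤ 1 / 4 * M ^ 2 := by rw [norm_mul]; gcongr
    rw [show g (ζ + a) - a * c - (g (ζ + 0) - 0 * c) = g (ζ + a) - g (ζ + 0) - a * c by ring]
    nlinarith
  have ho : (fun a => (g (ζ + a) - a * c) - (g (ζ + 0) - 0 * c)) =o[𝓝 0] fun w : ℂ => ‖w - 0‖ ^ 1 := by
    have h := hasDerivAt_iff_isLittleO_nhds_zero.mp hc
    simp only [sub_zero, pow_one]
    refine (h.congr_left fun a => ?_).norm_right
    simp only [smul_eq_mul, add_zero]; ring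
  have := dist_le_mul_div_pow_of_mapsTo_ball_of_isLittleO (n := 1) hd hm ho
    (mem_ball_zero_iff.mpr ha)
  rw [dist_eq_norm, dist_zero_right, add_zero] at this
  rw [show g (ζ + a) - g ζ - a * c = g (ζ + a) - a * c - (g ζ - 0 * c) by ring]
  refine this.trans (le_of_eq ?_)
  ring

structure Orb where
  u : ℂ → ℂ
  v : ℂ → ℂ
  j : ℂ
  M : ℝ
  hj : j ^ 2 + j + 1 = 0
  hM : 1 ≤ M
  hd : ∀ z : ℂ, |z.im| < 1 / 2 →
      HasDerivAt u (v z ^ 2) z ∧ HasDerivAt v (u z ^ 2) z ∧ ‖u z‖ ≤ M ∧ ‖v z‖ ≤ M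
  rev : ∀ z, v z = -u (-z)
  glv : ∀ z, v (z + Real.pi / 3) = j * conj (u (conj z))
  glu : ∀ z, u (z + Real.pi / 3) = j ^ 2 * conj (v (conj z))
  per : ∀ z, u (z + 2 * Real.pi) = u z
  h0 : u 0 ≠ 0

lemma nonempty_orb : Nonempty Orb := by
  obtain ⟨u, v, j, M, h1, h2, h3, h4, h5, h6, h7, h8⟩ := exists_orbit
  exact ⟨⟨u, v, j, M, h1, h2, h3, h4, h5, h6, h7, h8⟩⟩

namespace Orb

variable (O : Orb)

noncomputable def w (n : ℕ) : ℂ → ℂ := if Even n then O.u else O.v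

lemma w_prop (n : ℕ) (z : ℂ) (hz : |z.im| < 1 / 2) :
    HasDerivAt (O.w n) (O.w (n + 1) z ^ 2) z ∧ ‖O.w n z‖ ≤ O.M := by
  obtain ⟨h1, h2, h3, h4⟩ := O.hd z hz
  unfold w
  by_cases h : Even n
  · simp only [h, Nat.even_add_one, not_true, if_true, if_false]; exact ⟨h1, h3⟩
  · simp only [h, Nat.even_add_one, not_false_iff, if_true, if_false]; exact ⟨h2, h4⟩

lemma w_add_two (n : ℕ) : O.w (n + 2) = O.w n := by
  simp [w, Nat.even_add]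

lemma w_diff (n : ℕ) (z : ℂ) (hz : |z.im| < 1 / 2) :
    DifferentiableAt ℂ (O.w n) z ∧ ‖O.w n z‖ ≤ O.M :=
  ⟨(O.w_prop n z hz).1.differentiableAt, (O.w_prop n z hz).2⟩

noncomputable def Θ (q : ℂ × ℂ) : ℂ × ℂ := (q.2 * O.u q.1, q.2 * O.v q.1)

noncomputable def U (δ : ℝ) (z μ : ℂ) (n : ℕ) : ℂ := 2 * δ * μ * O.w n (z + μ * (n * δ))

noncomputable def C : ℝ := (64 * O.M + 2304 * O.M ^ 2) * Real.exp (18 * O.M)

lemma one_le_C : 16 ≤ O.C := by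
  have h1 := O.hM
  have h2 : 1 ≤ Real.exp (18 * O.M) := Real.one_le_exp (by linarith)
  unfold C
  nlinarith [sq_nonneg O.M]

lemma ref_im {δ : ℝ} (hδ : 0 < δ) {z μ : ℂ} (hz : |z.im| ≤ 1 / 40) (hμ : ‖μ - 1‖ ≤ 1 / 40)
    {n : ℕ} (hn : n * δ ≤ 3) : |(z + μ * (n * δ)).im| ≤ 1 / 4 := by
  have h1 : |μ.im| ≤ 1 / 40 := by
    have := abs_im_le_norm (μ - 1)
    simp only [sub_im, one_im, sub_zero] at this
    linarith
  have h2 : (z + μ * (n * δ)).im = z.im + μ.im * (n * δ) := by simp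
  have h3 : |μ.im * (n * δ)| ≤ 1 / 40 * 3 := by
    rw [abs_mul, abs_of_nonneg (by positivity : 0 ≤ (n : ℝ) * δ)]
    gcongr
  rw [h2]
  have := abs_add_le z.im (μ.im * (n * δ))
  linarith

lemma norm_mu {μ : ℂ} (hμ : ‖μ - 1‖ ≤ 1 / 40) : ‖μ‖ ≤ 2 := by
  have := norm_add_le (μ - 1) 1
  rw [sub_add_cancel, norm_one] at this
  linarith

lemma norm_U {δ : ℝ} (hδ : 0 < δ) {z μ : ℂ} (hz : |z.im| ≤ 1 / 40) (hμ : ‖μ - 1‖ ≤ 1 / 40)
    {n : ℕ} (hn : n * δ ≤ 3) : ‖O.U δ z μ n‖ ≤ 4 * O.M * δ := by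
  have h1 := (O.w_prop n _ ((ref_im hδ hz hμ hn).trans_lt (by norm_num))).2
  have h2 := norm_mu hμ
  unfold U
  rw [norm_mul, norm_mul, norm_mul, norm_real, Real.norm_eq_abs, abs_of_pos hδ, Complex.norm_two]
  calc 2 * δ * ‖μ‖ * ‖O.w n (z + μ * (n * δ))‖ ≤ 2 * δ * 2 * O.M := by gcongr
    _ = _ := by ring

lemma norm_mu_delta {δ : ℝ} (hδ : 0 < δ) {μ : ℂ} (hμ : ‖μ - 1‖ ≤ 1 / 40) :
    ‖μ * δ‖ ≤ 2 * δ := by
  rw [norm_mul, norm_real, Real.norm_eq_abs, abs_of_pos hδ]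
  have := norm_mu hμ
  gcongr

lemma trunc {δ : ℝ} (hδ : 0 < δ) (hδ2 : δ ≤ 1 / 16) {z μ : ℂ} (hz : |z.im| ≤ 1 / 40)
    (hμ : ‖μ - 1‖ ≤ 1 / 40) {n : ℕ} (hn : ((n + 1 : ℕ) : ℝ) * δ ≤ 3) :
    ‖O.U δ z μ (n + 2) - O.U δ z μ n - O.U δ z μ (n + 1) ^ 2‖ ≤ 1152 * O.M ^ 2 * δ ^ 3 := by
  have hζ := ref_im hδ hz hμ hn
  set ζ := z + μ * (((n + 1 : ℕ) : ℂ) * δ) with hζd
  have hp := O.w_prop n ζ (hζ.trans_lt (by norm_num))
  have hp1 := O.w_prop (n + 1) ζ (hζ.trans_lt (by norm_num))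
  have hc : ‖O.w (n + 1) ζ ^ 2‖ ≤ O.M ^ 2 := by
    rw [norm_pow]; exact pow_le_pow_left₀ (norm_nonneg _) hp1.2 2
  have ha := norm_mu_delta hδ hμ
  have t1 := tay1 O.hM (O.w_diff n) hζ hp.1 hc (a := μ * δ) (by linarith)
  have t2 := tay1 O.hM (O.w_diff n) hζ hp.1 hc (a := -(μ * δ)) (by rw [norm_neg]; linarith)
  rw [norm_neg] at t2
  have e : O.U δ z μ (n + 2) - O.U δ z μ n - O.U δ z μ (n + 1) ^ 2 = 2 * δ * μ *
      ((O.w n (ζ + μ * δ) - O.w n ζ - μ * δ * O.w (n + 1) ζ ^ 2) -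
       (O.w n (ζ + -(μ * δ)) - O.w n ζ - -(μ * δ) * O.w (n + 1) ζ ^ 2)) := by
    unfold U
    rw [O.w_add_two, ← hζd, show z + μ * (((n + 2 : ℕ) : ℂ) * δ) = ζ + μ * δ by
      rw [hζd]; push_cast; ring, show z + μ * ((n : ℂ) * δ) = ζ + -(μ * δ) by
      rw [hζd]; push_cast; ring]
    ring
  have hsq : ‖μ * δ‖ ^ 2 ≤ (2 * δ) ^ 2 := by gcongr
  have hM2 : 0 ≤ O.M ^ 2 := sq_nonneg _
  have t3 := (norm_sub_le _ _).trans (add_le_add t1 t2)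
  have t4 : 36 * O.M ^ 2 * ‖μ * δ‖ ^ 2 ≤ 36 * O.M ^ 2 * (2 * δ) ^ 2 := by gcongr
  rw [e, norm_mul, norm_mul, norm_mul, norm_real, Real.norm_eq_abs, abs_of_pos hδ, Complex.norm_two]
  have h2 := norm_mu hμ
  calc 2 * δ * ‖μ‖ * ‖_‖ ≤ 2 * δ * 2 * (2 * (36 * O.M ^ 2 * (2 * δ) ^ 2)) := by
        gcongr; linarith
    _ = _ := by ring

lemma approx {δ : ℝ} (hδ : 0 < δ) (hC : O.C * δ ≤ 1) {z μ : ℂ} (hz : |z.im| ≤ 1 / 40)
    (hμ : ‖μ - 1‖ ≤ 1 / 40) (n : ℕ) (hn : n * δ ≤ 2) :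
    ‖henon^[n] (((2 * δ : ℝ) : ℂ) • O.Θ (z, μ)) - (O.U δ z μ n, O.U δ z μ (n + 1))‖ ≤
      O.C * δ ^ 2 := by
  have hM := O.hM
  have hδ2 : δ ≤ 1 / 16 := by have := O.one_le_C; nlinarith
  have hfin : ∀ n : ℕ, n * δ ≤ 2 →
      (64 * O.M + 1152 * O.M ^ 2 * (n * δ)) * δ ^ 2 * Real.exp (9 * O.M * (n * δ)) ≤ O.C * δ ^ 2 := by
    intro n hn
    unfold C
    have h1 : Real.exp (9 * O.M * (n * δ)) ≤ Real.exp (18 * O.M) :=
      Real.exp_le_exp.mpr (by nlinarith)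
    have h2 : 64 * O.M + 1152 * O.M ^ 2 * (n * δ) ≤ 64 * O.M + 2304 * O.M ^ 2 := by
      nlinarith [sq_nonneg O.M]
    calc _ ≤ (64 * O.M + 2304 * O.M ^ 2) * δ ^ 2 * Real.exp (18 * O.M) := by gcongr
      _ = _ := by ring
  refine le_trans ?_ (hfin n hn)
  induction n with
  | zero =>
    have ha := norm_mu_delta hδ hμ
    have t := tay0 (O.w_diff 1) (ζ := z) (by linarith) (a := μ * δ) (by linarith)
    have e : henon^[0] (((2 * δ : ℝ) : ℂ) • O.Θ (z, μ)) - (O.U δ z μ 0, O.U δ z μ (0 + 1)) =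
        (0, -(2 * δ * μ * (O.w 1 (z + μ * δ) - O.w 1 z))) := by
      ext <;> simp [Θ, U, w] <;> ring
    rw [e, Prod.norm_def, norm_zero, max_eq_right (norm_nonneg _), norm_neg, norm_mul, norm_mul,
      norm_mul, norm_real, Real.norm_eq_abs, abs_of_pos hδ, Complex.norm_two]
    have h2 := norm_mu hμ
    calc 2 * δ * ‖μ‖ * ‖_‖ ≤ 2 * δ * 2 * (8 * O.M * (2 * δ)) := by
          gcongr
          exact t.trans (by gcongr)
      _ = _ := by simp; ring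
  | succ n ih =>
    have hn' : (n : ℝ) * δ ≤ 2 := by push_cast at hn; nlinarith
    have ih := ih hn'
    have ih2 : _ ≤ δ := (ih.trans (hfin n hn')).trans (by nlinarith)
    rw [Function.iterate_succ_apply']
    set p := henon^[n] (((2 * δ : ℝ) : ℂ) • O.Θ (z, μ))
    set D := ‖p - (O.U δ z μ n, O.U δ z μ (n + 1))‖ with hD
    have d1 : ‖p.1 - O.U δ z μ n‖ ≤ D := norm_fst_le (p - (O.U δ z μ n, O.U δ z μ (n + 1)))
    have d2 : ‖p.2 - O.U δ z μ (n + 1)‖ ≤ D := norm_snd_le (p - (O.U δ z μ n, O.U δ z μ (n + 1)))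
    have hU := O.norm_U hδ hz hμ (n := n + 1) (by linarith)
    have ht := O.trunc hδ hδ2 hz hμ (n := n) (by linarith)
    have hD0 : 0 ≤ D := norm_nonneg _
    have d3 : ‖p.2 + O.U δ z μ (n + 1)‖ ≤ 9 * O.M * δ := by
      rw [show p.2 + O.U δ z μ (n + 1) = (p.2 - O.U δ z μ (n + 1)) + O.U δ z μ (n + 1) +
        O.U δ z μ (n + 1) by ring]
      have := norm_add₃_le (a := p.2 - O.U δ z μ (n + 1)) (b := O.U δ z μ (n + 1))
        (c := O.U δ z μ (n + 1))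
      nlinarith
    have step : ‖henon p - (O.U δ z μ (n + 1), O.U δ z μ (n + 1 + 1))‖ ≤
        (1 + 9 * O.M * δ) * D + 1152 * O.M ^ 2 * δ ^ 3 := by
      have pos1 : 0 ≤ 9 * O.M * δ * D := by positivity
      have pos2 : 0 ≤ 1152 * O.M ^ 2 * δ ^ 3 := by positivity
      refine norm_prod_le_iff.mpr ⟨?_, ?_⟩
      · simp only [henon, Prod.fst_sub]; linarith
      · simp only [henon, Prod.snd_sub]
        rw [show p.1 + p.2 ^ 2 - O.U δ z μ (n + 1 + 1) = (p.1 - O.U δ z μ n) +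
          (p.2 + O.U δ z μ (n + 1)) * (p.2 - O.U δ z μ (n + 1)) -
          (O.U δ z μ (n + 2) - O.U δ z μ n - O.U δ z μ (n + 1) ^ 2) by ring]
        refine (norm_sub_le _ _).trans ?_
        have h1 := norm_add_le (p.1 - O.U δ z μ n)
          ((p.2 + O.U δ z μ (n + 1)) * (p.2 - O.U δ z μ (n + 1)))
        have h2 : ‖(p.2 + O.U δ z μ (n + 1)) * (p.2 - O.U δ z μ (n + 1))‖ ≤ 9 * O.M * δ * D := by
          rw [norm_mul]; gcongr
        linarith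
    refine step.trans ?_
    have e1 : 1 + 9 * O.M * δ ≤ Real.exp (9 * O.M * δ) := by
      linarith [Real.add_one_le_exp (9 * O.M * δ)]
    have e2 : Real.exp (9 * O.M * (((n + 1 : ℕ) : ℝ) * δ)) =
        Real.exp (9 * O.M * δ) * Real.exp (9 * O.M * (n * δ)) := by
      rw [← Real.exp_add]; congr 1; push_cast; ring
    have e3 : 1 ≤ Real.exp (9 * O.M * (((n + 1 : ℕ) : ℝ) * δ)) := Real.one_le_exp (by positivity)
    calc (1 + 9 * O.M * δ) * D + 1152 * O.M ^ 2 * δ ^ 3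
        ≤ Real.exp (9 * O.M * δ) * ((64 * O.M + 1152 * O.M ^ 2 * (n * δ)) * δ ^ 2 *
            Real.exp (9 * O.M * (n * δ))) +
          1152 * O.M ^ 2 * δ ^ 3 * Real.exp (9 * O.M * (((n + 1 : ℕ) : ℝ) * δ)) := by
          refine add_le_add (by gcongr) (le_mul_of_one_le_right (by positivity) e3)
      _ = _ := by rw [e2]; push_cast; ring

end Orb

end Pool.Agent.P.MP_c8d52e_an
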