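import Pool.Agent.P.MP_c8d52e_an.Eigen
import Pool.Agent.P.MP_c8d52e_an.Core3

/-! The chart around the closed orbit and the estimates of the setup. -/

namespace Pool.Agent.P.MP_c8d52e_an

open Complex ComplexConjugate Metric Set Filter Topology Asymptotics Matrix

lemma norm_toL_le {A : Matrix (Fin 2) (Fin 2) ℂ} {b : ℝ} (h : ∀ i k, ‖A i k‖ ≤ b) (q : ℂ × ℂ) :
    ‖toL A q‖ ≤ 2 * b * ‖q‖ := by
  have hb : 0 ≤ b := (norm_nonneg _).trans (h 0 0)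
  have key : ∀ i, ‖A i 0 * q.1 + A i 1 * q.2‖ ≤ 2 * b * ‖q‖ := fun i => by
    have h1 : ‖A i 0 * q.1‖ ≤ b * ‖q‖ := by
      rw [norm_mul]; exact mul_le_mul (h i 0) (norm_fst_le q) (norm_nonneg _) hb
    have h2 : ‖A i 1 * q.2‖ ≤ b * ‖q‖ := by
      rw [norm_mul]; exact mul_le_mul (h i 1) (norm_snd_le q) (norm_nonneg _) hb
    linarith [norm_add_le (A i 0 * q.1) (A i 1 * q.2)]
  rw [toL_apply]
  exact norm_prod_le_iff.mpr ⟨key 0, key 1⟩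

noncomputable def ell : ℝ := Real.pi / 3

lemma ell_cast : (ell : ℂ) = Real.pi / 3 := by simp [ell]

lemma one_le_ell : 1 ≤ ell := by unfold ell; linarith [Real.pi_gt_three]

lemma ell_le_two : ell ≤ 2 := by unfold ell; linarith [Real.pi_le_four]

namespace Orb

variable (O : Orb)

noncomputable def E : ℂ := O.u 0 ^ 3 - O.v 0 ^ 3

lemma E_ne : O.E ≠ 0 := by
  have h := O.h0
  unfold E
  rw [O.rev 0, neg_zero, show O.u 0 ^ 3 - (-O.u 0) ^ 3 = 2 * O.u 0 ^ 3 by ring]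
  exact mul_ne_zero two_ne_zero (pow_ne_zero _ h)

lemma E_const {z : ℂ} (hz : |z.im| < 1 / 2) : O.u z ^ 3 - O.v z ^ 3 = O.E := by
  have hd : ∀ w : ℂ, |w.im| < 1 / 2 → HasDerivAt (fun w => O.u w ^ 3 - O.v w ^ 3) 0 w := by
    intro w hw
    obtain ⟨h1, h2, -, -⟩ := O.hd w hw
    refine HasDerivAt.congr_deriv ((h1.pow 3).sub (h2.pow 3)) ?_
    simp; ring
  have hc : Convex ℝ {z : ℂ | |z.im| < 1 / 2} := by
    have : {z : ℂ | |z.im| < 1 / 2} = {z : ℂ | -(1 / 2) < z.im} ∩ {z : ℂ | z.im < 1 / 2} := by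
      ext w; simp only [mem_ofPred_eq, mem_inter_iff, abs_lt]
    rw [this]
    exact (convex_halfSpace_im_gt _).inter (convex_halfSpace_im_lt _)
  exact (isOpen_strip (1 / 2)).is_const_of_deriv_eq_zero hc.isPreconnected
    (f := fun w => O.u w ^ 3 - O.v w ^ 3)
    (fun w hw => (hd w hw).differentiableAt.differentiableWithinAt)
    (fun w hw => (hd w hw).deriv) hz (by simp)

noncomputable def TM (z μ : ℂ) : Matrix (Fin 2) (Fin 2) ℂ :=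
  !![μ * O.v z ^ 2, O.u z; μ * O.u z ^ 2, O.v z]

lemma hasFDerivAt_Θ {q : ℂ × ℂ} (hq : |q.1.im| < 1 / 2) :
    HasFDerivAt O.Θ (toL (O.TM q.1 q.2)) q := by
  obtain ⟨h1, h2, -, -⟩ := O.hd q.1 hq
  have a1 := (hasFDerivAt_snd (𝕜 := ℂ) (p := q)).mul
    (h1.comp_hasFDerivAt q (hasFDerivAt_fst (𝕜 := ℂ) (p := q)))
  have a2 := (hasFDerivAt_snd (𝕜 := ℂ) (p := q)).mul
    (h2.comp_hasFDerivAt q (hasFDerivAt_fst (𝕜 := ℂ) (p := q)))
  refine HasFDerivAt.congr_fderiv (a1.prodMk a2) ?_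
  refine ContinuousLinearMap.ext fun w => ?_
  ext <;> simp [TM] <;> ring

lemma det_TM {z : ℂ} (hz : |z.im| < 1 / 2) (μ : ℂ) : (O.TM z μ).det = -(μ * O.E) := by
  rw [← O.E_const hz, TM, det_fin_two_of]; ring

noncomputable def TiM (z : ℂ) : Matrix (Fin 2) (Fin 2) ℂ :=
  !![-O.v z / O.E, O.u z / O.E; O.u z ^ 2 / O.E, -O.v z ^ 2 / O.E]

lemma TiM_mul {z : ℂ} (hz : |z.im| < 1 / 2) : O.TiM z * O.TM z 1 = 1 := by
  have h := O.E_const hz
  have hE := O.E_ne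
  ext i k
  fin_cases i <;> fin_cases k <;> simp [TiM, TM, Matrix.mul_apply, Fin.sum_univ_two] <;>
    field_simp <;> first | linear_combination h | ring

noncomputable def b : ℝ := O.M ^ 2 / ‖O.E‖

lemma b_pos : 0 < O.b := by
  have := O.hM
  have := norm_pos_iff.mpr O.E_ne
  unfold b; positivity

lemma TiM_le {z : ℂ} (hz : |z.im| < 1 / 2) (i k : Fin 2) : ‖O.TiM z i k‖ ≤ O.b := by
  obtain ⟨-, -, h1, h2⟩ := O.hd z hz
  have hM := O.hM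
  have hE := norm_pos_iff.mpr O.E_ne
  have a1 : ‖O.u z‖ ≤ O.M ^ 2 := by nlinarith
  have a2 : ‖O.v z‖ ≤ O.M ^ 2 := by nlinarith
  have a3 : ‖O.u z‖ ^ 2 ≤ O.M ^ 2 := by gcongr
  have a4 : ‖O.v z‖ ^ 2 ≤ O.M ^ 2 := by gcongr
  fin_cases i <;> fin_cases k <;> simp [TiM, b] <;> gcongr

lemma norm_Θ {q : ℂ × ℂ} (hq : |q.1.im| < 1 / 2) (hμ : ‖q.2‖ ≤ 2) : ‖O.Θ q‖ ≤ 2 * O.M := by
  obtain ⟨-, -, h1, h2⟩ := O.hd q.1 hq
  refine norm_prod_le_iff.mpr ⟨?_, ?_⟩ <;> simp only [Θ, norm_mul] <;> gcongr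

noncomputable def K : ℝ := 8 * O.b * O.M + 1 / 4

lemma K_ge : 1 / 4 ≤ O.K := by
  have := O.b_pos; have := O.hM
  unfold K
  have : 0 ≤ 8 * O.b * O.M := by positivity
  linarith

lemma B_bound (s : ℝ) {q : ℂ × ℂ} (hq : ‖q‖ < 1 / 4) :
    ‖toL (O.TiM (s + ell)) (O.Θ (s + ell + q.1, 1 + q.2) - O.Θ (s + ell, 1)) - q‖ ≤
      16 * O.K * ‖q‖ ^ 2 := by
  have hs : |((s : ℂ) + ell).im| < 1 / 2 := by simp
  have him : ∀ q : ℂ × ℂ, ‖q‖ < 1 / 4 → |((((s + ell : ℂ), (1 : ℂ)) + q).1).im| < 1 / 2 := by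
    intro q hq
    have := (abs_im_le_norm _).trans (norm_fst_le q)
    simp only [Prod.fst_add, add_im, ofReal_im, zero_add]
    linarith
  set f : ℂ × ℂ → ℂ × ℂ := fun q =>
    toL (O.TiM (s + ell)) (O.Θ (((s + ell : ℂ), (1 : ℂ)) + q) - O.Θ (s + ell, 1)) - q with hf
  have hd : ∀ q : ℂ × ℂ, ‖q‖ < 1 / 4 → HasFDerivAt f
      ((toL (O.TiM (s + ell))).comp (toL (O.TM (s + ell + q.1) (1 + q.2))) -
        ContinuousLinearMap.id ℂ _) q := by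
    intro q hq
    have h2 := ((O.hasFDerivAt_Θ (him q hq)).comp q
      ((hasFDerivAt_id q).const_add ((s + ell : ℂ), (1 : ℂ)))).sub_const (O.Θ (s + ell, 1))
    have h3 := ((toL (O.TiM (s + ell))).hasFDerivAt.comp q h2).sub (hasFDerivAt_id q)
    rw [ContinuousLinearMap.comp_id] at h3
    exact h3
  have hf0 : f 0 = 0 := by simp [hf]
  have hm : MapsTo f (ball 0 (1 / 4)) (closedBall (f 0) O.K) := by
    intro q hq
    have hq' := mem_ball_zero_iff.mp hq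
    rw [hf0, mem_closedBall_zero_iff]
    have h1 := O.norm_Θ (him q hq') (by
      have := norm_add_le 1 q.2
      have := norm_snd_le q
      simp only [Prod.snd_add, norm_one] at *
      linarith)
    have h2 := O.norm_Θ (q := (s + ell, 1)) hs (by simp)
    have h3 := norm_toL_le (O.TiM_le hs) (O.Θ (((s + ell : ℂ), (1 : ℂ)) + q) - O.Θ (s + ell, 1))
    have h4 := norm_sub_le (O.Θ (((s + ell : ℂ), (1 : ℂ)) + q)) (O.Θ (s + ell, 1))
    have h5 := O.b_pos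
    refine (norm_sub_le _ _).trans ?_
    unfold K
    nlinarith
  have ho : (fun q => f q - f 0) =o[𝓝 0] fun w : ℂ × ℂ => ‖w - 0‖ ^ 1 := by
    have h := (hd 0 (by simp)).isLittleO
    simp only [Prod.fst_zero, Prod.snd_zero, add_zero, ← toL_mul, O.TiM_mul hs, toL_one, sub_self,
      _root_.zero_apply, sub_zero] at h
    simp only [sub_zero, pow_one]
    exact h.norm_right
  have := dist_le_mul_div_pow_of_mapsTo_ball_of_isLittleO (n := 1)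
    (fun q hq => (hd q (mem_ball_zero_iff.mp hq)).differentiableAt.differentiableWithinAt) hm ho
    (mem_ball_zero_iff.mpr hq)
  rw [hf0, dist_zero_right, dist_zero_right] at this
  refine le_trans this (le_of_eq ?_)
  ring

noncomputable def Γ (δ : ℝ) (m : ℕ) (q : ℂ × ℂ) : ℂ × ℂ :=
  ((2 * δ : ℝ) : ℂ)⁻¹ • toL !![0, 1; 1, 0] (henon^[m] (((2 * δ : ℝ) : ℂ) • O.Θ q))

lemma hasFDerivAt_Γ {δ : ℝ} (hδ : 0 < δ) (m : ℕ) {q : ℂ × ℂ} (hq : |q.1.im| < 1 / 2) :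
    HasFDerivAt (O.Γ δ m)
      (toL (!![0, 1; 1, 0] * Jac m (((2 * δ : ℝ) : ℂ) • O.Θ q) * O.TM q.1 q.2)) q := by
  have h1 := (O.hasFDerivAt_Θ hq).const_smul ((2 * δ : ℝ) : ℂ)
  have h2 := ((toL !![0, 1; 1, 0]).hasFDerivAt.comp q
    ((hasFDerivAt_iter m _).comp q h1)).const_smul ((2 * δ : ℝ) : ℂ)⁻¹
  refine HasFDerivAt.congr_fderiv h2 ?_
  have h0 : ((2 * δ : ℝ) : ℂ) ≠ 0 := ofReal_ne_zero.mpr (by positivity)
  rw [toL_mul, toL_mul, ContinuousLinearMap.comp_smul, ContinuousLinearMap.comp_smul, smul_smul,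
    inv_mul_cancel₀ h0, one_smul, ContinuousLinearMap.comp_assoc]
  rfl

lemma Γ_approx {δ : ℝ} (hδ : 0 < δ) (hC : O.C * δ ≤ 1) {k : ℕ} (hk : ((2 * k + 1 : ℕ) : ℝ) * δ = ell)
    {z μ : ℂ} (hz : |z.im| ≤ 1 / 40) (hμ : ‖μ - 1‖ ≤ 1 / 40) :
    ‖O.Γ δ (2 * k + 1) (z, μ) - O.Θ (z + μ * ell, μ)‖ ≤ (O.C + 32 * O.M) * δ := by
  have hM := O.hM
  have hC16 := O.one_le_C
  have hδ2 : δ ≤ 1 / 16 := by nlinarith
  have h := O.approx hδ hC hz hμ (2 * k + 1) (by rw [hk]; exact ell_le_two)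
  have h0 : ((2 * δ : ℝ) : ℂ) ≠ 0 := ofReal_ne_zero.mpr (by positivity)
  have hkc : ((2 * k + 1 : ℕ) : ℂ) * δ = ell := by exact_mod_cast hk
  have hζ := ref_im hδ hz hμ (n := 2 * k + 1) (by rw [hk]; linarith [ell_le_two])
  rw [hkc] at hζ
  have w1 : O.w (2 * k + 1) = O.v := by simp [w]
  have w2 : O.w (2 * k + 1 + 1) = O.u := by simp [w, Nat.even_add_one]
  have u1 : O.U δ z μ (2 * k + 1) = ((2 * δ : ℝ) : ℂ) * (μ * O.v (z + μ * ell)) := by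
    rw [U, w1, hkc]; push_cast; ring
  have u2 : O.U δ z μ (2 * k + 1 + 1) = ((2 * δ : ℝ) : ℂ) * (μ * O.u (z + μ * ell + μ * δ)) := by
    rw [U, w2, Nat.cast_succ (2 * k + 1), add_mul, hkc]; push_cast; ring_nf
  have ha := norm_mu_delta hδ hμ
  have t := tay0 (g := O.u) (M := O.M) (fun z hz => ⟨(O.hd z hz).1.differentiableAt, (O.hd z hz).2.2.1⟩)
    hζ (a := μ * δ) (by linarith)
  unfold Γ
  set p := henon^[2 * k + 1] (((2 * δ : ℝ) : ℂ) • O.Θ (z, μ))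
  have hn : ∀ x : ℂ, ‖x‖ ≤ O.C * δ ^ 2 → ‖((2 * δ : ℝ) : ℂ)⁻¹ * x‖ ≤ O.C * δ := by
    intro x hx
    rw [norm_mul, norm_inv, norm_real, Real.norm_eq_abs, abs_of_pos (by positivity),
      inv_mul_le_iff₀ (by positivity)]
    nlinarith
  have d1 := hn _ ((norm_fst_le _).trans h)
  have d2 := hn _ ((norm_snd_le _).trans h)
  simp only [Prod.fst_sub, Prod.snd_sub, u1, u2, mul_sub, inv_mul_cancel_left₀ h0] at d1 d2
  have d3 : ‖μ * (O.u (z + μ * ell + μ * δ) - O.u (z + μ * ell))‖ ≤ 2 * (8 * O.M * (2 * δ)) := by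
    rw [norm_mul]
    have := norm_mu hμ
    gcongr
    exact t.trans (by gcongr)
  have pos : 0 ≤ O.M * δ := by positivity
  refine norm_prod_le_iff.mpr ⟨?_, ?_⟩
  · have : (((2 * δ : ℝ) : ℂ)⁻¹ • toL !![0, 1; 1, 0] p - O.Θ (z + μ * ell, μ)).1 =
        (((2 * δ : ℝ) : ℂ)⁻¹ * p.2 - μ * O.u (z + μ * ell + μ * δ)) +
          μ * (O.u (z + μ * ell + μ * δ) - O.u (z + μ * ell)) := by
      simp [Θ]; ring
    rw [this]
    refine (norm_add_le _ _).trans ?_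
    linarith
  · have : (((2 * δ : ℝ) : ℂ)⁻¹ • toL !![0, 1; 1, 0] p - O.Θ (z + μ * ell, μ)).2 =
        ((2 * δ : ℝ) : ℂ)⁻¹ * p.1 - μ * O.v (z + μ * ell) := by
      simp [Θ]
    rw [this]
    linarith

end Orb

end Pool.Agent.P.MP_c8d52e_an
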