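import Pool.Agent.P.MP_c8d52e_an.Main1

/-! The setup for a given odd number of iterates, and the final statement. -/

namespace Pool.Agent.P.MP_c8d52e_an

open Complex ComplexConjugate Metric Set Filter Topology Asymptotics Matrix

def refl (p : ℂ × ℂ) : ℂ × ℂ := (-p.2, -p.1)

lemma iter_refl_iter (n : ℕ) (p : ℂ × ℂ) : henon^[n] (refl (henon^[n] p)) = refl p := by
  induction n with
  | zero => rfl
  | succ n ih =>
    rw [Function.iterate_succ_apply, Function.iterate_succ_apply', ← ih]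
    congr 1
    ext <;> simp [henon, refl]

lemma refl_sig {a : ℂ} (ha : a ^ 3 = 1) (p : ℂ × ℂ) : refl (sig a p) = sig (a ^ 2) (refl p) := by
  ext
  · simp [refl, sig]
  · simp only [refl, sig, map_neg]
    linear_combination (a * conj p.1) * ha

lemma sig_sig {a : ℂ} (ha : a ^ 3 = 1) (p : ℂ × ℂ) : sig a (sig a p) = p := by
  have c := conj_of_cube ha
  ext
  · simp only [sig, map_mul, conj_conj, c]
    linear_combination p.1 * ha
  · simp only [sig, map_mul, map_pow, conj_conj, c]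
    linear_combination (a ^ 3 + 1) * p.2 * ha

lemma sig_smul (a : ℂ) (h : ℝ) (p : ℂ × ℂ) : sig a ((h : ℂ) • p) = (h : ℂ) • sig a p := by
  ext <;> simp [sig] <;> ring

lemma henon_injective : Function.Injective henon := by
  intro p q h
  have h1 := congrArg Prod.fst h
  have h2 := congrArg Prod.snd h
  simp only [henon] at h1 h2
  rw [h1] at h2
  exact Prod.ext (add_right_cancel h2) h1

lemma iter_ne_zero {p : ℂ × ℂ} (hp : p ≠ 0) (n : ℕ) : henon^[n] p ≠ 0 := by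
  intro h
  have h0 : henon^[n] 0 = 0 := Function.iterate_fixed (by simp [henon]) n
  exact hp (henon_injective.iterate n (h.trans h0.symm))

namespace Orb

variable (O : Orb)

lemma j_cube : O.j ^ 3 = 1 := by linear_combination (O.j - 1) * O.hj

lemma Θ_conj (z b : ℂ) : O.Θ (conj z + ell, conj b) = toL !![0, 1; 1, 0] (sig O.j (O.Θ (z, b))) := by
  ext <;> simp [Θ, sig, ell_cast, O.glu, O.glv] <;> ring

lemma TM_conj (z b : ℂ) :
    O.TM (conj z + ell) (conj b) = !![0, 1; 1, 0] * Dg O.j * (O.TM z b).map conj := by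
  have h := O.j_cube
  ext i k
  fin_cases i <;> fin_cases k <;>
    simp [TM, Dg, ell_cast, O.glu, O.glv, Matrix.mul_apply, Fin.sum_univ_two]
  · ring
  · linear_combination (conj b * O.j * conj (O.v z) ^ 2) * h

lemma Γ_eq_iff {δ : ℝ} (hδ : 0 < δ) (m : ℕ) (z a b : ℂ) :
    O.Γ δ m (z, a) = O.Θ (conj z + ell, conj b) ↔
      henon^[m] (((2 * δ : ℝ) : ℂ) • O.Θ (z, a)) = sig O.j (((2 * δ : ℝ) : ℂ) • O.Θ (z, b)) := by
  have h0 : ((2 * δ : ℝ) : ℂ) ≠ 0 := ofReal_ne_zero.mpr (by positivity)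
  rw [Θ_conj, sig_smul, Γ, inv_smul_eq_iff₀ h0, ← map_smul]
  generalize henon^[m] (((2 * δ : ℝ) : ℂ) • O.Θ (z, a)) = x
  generalize ((2 * δ : ℝ) : ℂ) • sig O.j (O.Θ (z, b)) = y
  simp [Prod.ext_iff, and_comm]

lemma Θ_neg (h z b : ℂ) : h • O.Θ (-z, b) = refl (h • O.Θ (z, b)) := by
  ext <;> simp [Θ, refl, O.rev]

noncomputable def r : ℝ := 1 / (4608000 * O.K)

lemma r_pos : 0 < O.r := by have := O.K_ge; unfold r; positivity

lemma K_mul_r : O.K * O.r = 1 / 4608000 := by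
  have := O.K_ge; unfold r; field_simp

lemma r_le : O.r ≤ 1 / 160 := by
  have := O.K_ge; have := O.K_mul_r; have := O.r_pos
  nlinarith

noncomputable def setup (δ : ℝ) (k : ℕ) (hδ : 0 < δ) (hC : O.C * δ ≤ 1)
    (hk : ((2 * k + 1 : ℕ) : ℝ) * δ = ell)
    (hε : 2 * O.b * ((O.C + 32 * O.M) * δ) ≤ O.r / 2000) : Setup where
  l := ell
  r := O.r
  T := 2 * Real.pi
  Γ := O.Γ δ (2 * k + 1)
  Θ := O.Θ
  Ti := fun s => toL (O.TiM (s + ell))
  hl1 := one_le_ell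
  hl2 := ell_le_two
  hr := O.r_pos
  hT := by positivity
  hTi := fun s x y h => by
    have h1 : O.TM (s + ell) 1 * O.TiM (s + ell) = 1 := mul_eq_one_comm.mp (O.TiM_mul (by simp))
    have h2 := congrArg (toL (O.TM (s + ell) 1)) h
    rwa [← ContinuousLinearMap.comp_apply, ← ContinuousLinearMap.comp_apply, ← toL_mul, h1,
      toL_one] at h2
  hΓ := fun q hq _ => (O.hasFDerivAt_Γ hδ _ (by linarith [O.r_le])).differentiableAt
  hΘ := fun q hq _ => (O.hasFDerivAt_Θ (by linarith [O.r_le])).differentiableAt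
  hA := fun s q hq => by
    have hr := O.r_le
    have hr0 := O.r_pos
    have hK := O.K_ge
    have hb := O.b_pos
    have h1 := O.Γ_approx hδ hC hk (z := s + q.1) (μ := 1 + q.2)
      (by
        have := (abs_im_le_norm _).trans (norm_fst_le q)
        simp only [add_im, ofReal_im, zero_add]; linarith)
      (by rw [add_sub_cancel_left]; linarith [norm_snd_le q])
    have hn : ‖((q.1 + ell * q.2, q.2) : ℂ × ℂ)‖ ≤ 12 * O.r := by
      have a1 := norm_fst_le q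
      have a2 := norm_snd_le q
      refine norm_prod_le_iff.mpr ⟨(norm_add_le _ _).trans ?_, by simp only; linarith⟩
      rw [norm_mul, norm_real, Real.norm_eq_abs, abs_of_pos (by linarith [one_le_ell])]
      nlinarith [ell_le_two, norm_nonneg q.2]
    have h2 := O.B_bound s (q := (q.1 + ell * q.2, q.2)) (by linarith)
    have h3 := norm_toL_le (O.TiM_le (z := s + ell) (by simp))
      (O.Γ δ (2 * k + 1) (s + q.1, 1 + q.2) - O.Θ (s + q.1 + (1 + q.2) * ell, 1 + q.2))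
    rw [show (s : ℂ) + q.1 + (1 + q.2) * ell = s + ell + (q.1 + ell * q.2) by ring] at h1 h3
    have e : toL (O.TiM (s + ell)) (O.Γ δ (2 * k + 1) (s + q.1, 1 + q.2) - O.Θ (s + ell, 1)) -
        (q.1 + ell * q.2, q.2) =
        toL (O.TiM (s + ell)) (O.Γ δ (2 * k + 1) (s + q.1, 1 + q.2) -
          O.Θ (s + ell + (q.1 + ell * q.2), 1 + q.2)) +
        (toL (O.TiM (s + ell)) (O.Θ (s + ell + (q.1 + ell * q.2), 1 + q.2) - O.Θ (s + ell, 1)) -
          (q.1 + ell * q.2, q.2)) := by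
      simp only [map_sub]; abel
    rw [e]
    refine (norm_add_le _ _).trans ?_
    have h4 : 16 * O.K * ‖((q.1 + ell * q.2, q.2) : ℂ × ℂ)‖ ^ 2 ≤ 16 * O.K * (12 * O.r) ^ 2 := by
      gcongr
    have h5 : 16 * O.K * (12 * O.r) ^ 2 = O.r / 2000 := by
      linear_combination (2304 * O.r) * O.K_mul_r
    have h6 : 2 * O.b * ‖O.Γ δ (2 * k + 1) (s + q.1, 1 + q.2) -
        O.Θ (s + ell + (q.1 + ell * q.2), 1 + q.2)‖ ≤ 2 * O.b * ((O.C + 32 * O.M) * δ) := by gcongr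
    linarith
  hB := fun s q hq => by
    have hr := O.r_le
    have hr0 := O.r_pos
    have hK := O.K_ge
    have h2 := O.B_bound s (q := q) (by linarith)
    have h4 : 16 * O.K * ‖q‖ ^ 2 ≤ 16 * O.K * (12 * O.r) ^ 2 := by
      gcongr; linarith
    have h5 : 16 * O.K * (12 * O.r) ^ 2 = O.r / 2000 := by
      linear_combination (2304 * O.r) * O.K_mul_r
    linarith
  perΓ := fun z μ => by
    have h := O.per (-(z + 2 * Real.pi))
    rw [show -(z + 2 * Real.pi) + 2 * Real.pi = -z by ring] at h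
    simp only [Γ, Θ, O.rev, ofReal_mul, ofReal_ofNat, O.per, h]
  perΘ := fun z μ => by
    have h := O.per (-(z + 2 * Real.pi))
    rw [show -(z + 2 * Real.pi) + 2 * Real.pi = -z by ring] at h
    simp only [Θ, O.rev, ofReal_mul, ofReal_ofNat, O.per, h]
  rev := fun z a b h => by
    have hj := O.j_cube
    have hj2 : (O.j ^ 2) ^ 3 = 1 := by linear_combination (O.j ^ 3 + 1) * hj
    have hj4 : (O.j ^ 2) ^ 2 = O.j := by linear_combination O.j * hj
    rw [← map_neg conj z, O.Γ_eq_iff hδ, Θ_neg, Θ_neg]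
    rw [O.Γ_eq_iff hδ] at h
    rw [← sig_sig hj (((2 * δ : ℝ) : ℂ) • O.Θ (z, b)), ← h, refl_sig hj, iter_sig_odd hj2, hj4,
      iter_refl_iter]

lemma exists_M {δ : ℝ} (hδ : 0 < δ) (k : ℕ) {z μ : ℂ} (hz : |z.im| < 1 / 2) (hμ : μ ≠ 0) :
    ∃ α β γ δ' : ℂ,
      (∀ v : ℂ × ℂ, fderiv ℂ O.Θ (conj z + ell, conj μ) (α * v.1 + β * v.2, γ * v.1 + δ' * v.2) =
        fderiv ℂ (O.Γ δ (2 * k + 1)) (z, μ) v) ∧ ‖α * δ' - β * γ‖ = 1 ∧
      (Nmat O.j (Jac (2 * k + 1) (((2 * δ : ℝ) : ℂ) • O.Θ (z, μ)))).trace =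
        conj α * α + conj β * γ + conj γ * β + conj δ' * δ' := by
  have hj := O.j_cube
  have hj2 : (O.j ^ 2) ^ 3 = 1 := by linear_combination (O.j ^ 3 + 1) * hj
  have hj4 : (O.j ^ 2) ^ 2 = O.j := by linear_combination O.j * hj
  have c2 : conj (O.j ^ 2) = O.j := by rw [conj_of_cube hj2, hj4]
  set J := Jac (2 * k + 1) (((2 * δ : ℝ) : ℂ) • O.Θ (z, μ)) with hJ
  set A := O.TM z μ with hA
  have hdet : A.det ≠ 0 := by
    rw [hA, O.det_TM hz]; exact neg_ne_zero.mpr (mul_ne_zero hμ O.E_ne)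
  have x1 : A * A⁻¹ = 1 := Matrix.mul_nonsing_inv A (Ne.isUnit hdet)
  have x2 : A.map conj * (A⁻¹).map conj = 1 := by
    rw [← Matrix.map_mul, x1]; simp
  have s3 : Dg O.j * Dg (O.j ^ 2) = 1 := by rw [Dg_mul, ← pow_succ', hj, Dg_one]
  set M := (A⁻¹).map conj * Dg (O.j ^ 2) * J * A with hM
  refine ⟨M 0 0, M 0 1, M 1 0, M 1 1, fun v => ?_, ?_, ?_⟩
  · rw [(O.hasFDerivAt_Θ (q := (conj z + ell, conj μ)) (by simpa using hz)).fderiv,
      (O.hasFDerivAt_Γ hδ _ (q := (z, μ)) hz).fderiv, ← toL_apply M,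
      ← ContinuousLinearMap.comp_apply, ← toL_mul, O.TM_conj, ← hA, ← hJ, hM]
    congr 2
    simp only [Matrix.mul_assoc]
    rw [← Matrix.mul_assoc (A.map conj), x2, Matrix.one_mul, ← Matrix.mul_assoc (Dg O.j), s3,
      Matrix.one_mul]
  · rw [← det_fin_two, hM, det_mul, det_mul, det_mul, hJ, Jac_det]
    have d1 : ((A⁻¹).map conj).det = conj (A⁻¹).det := (RingHom.map_det conj A⁻¹).symm
    have d2 : (Dg (O.j ^ 2)).det = 1 := by
      rw [Dg, det_fin_two_of]; linear_combination hj2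
    have d3 : ‖(A⁻¹).det‖ * ‖A.det‖ = 1 := by
      rw [← norm_mul, ← det_mul, Matrix.nonsing_inv_mul A (Ne.isUnit hdet), det_one, norm_one]
    rw [d1, d2, norm_mul, norm_mul, norm_mul, norm_conj, norm_pow, norm_neg, norm_one, one_pow,
      mul_one, mul_one, d3]
  · have e : (M.map conj * M).trace = conj (M 0 0) * M 0 0 + conj (M 0 1) * M 1 0 +
        conj (M 1 0) * M 0 1 + conj (M 1 1) * M 1 1 := by
      simp only [Matrix.trace_fin_two, Matrix.mul_apply, Fin.sum_univ_two, Matrix.map_apply]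
      ring
    rw [← e, hM]
    simp only [Matrix.map_mul, map_conj_conj, Dg_map, c2, Matrix.mul_assoc]
    rw [← Matrix.mul_assoc (A.map conj), x2, Matrix.one_mul, Matrix.trace_mul_comm A⁻¹]
    simp only [Matrix.mul_assoc, x1, Matrix.mul_one, Nmat]

include O in
lemma cycles (ε : ℝ) (hε : 0 < ε) :
    (∃ (p : ℂ × ℂ) (N : ℕ) (T : ℝ), 0 < N ∧ Even N ∧ henon^[N] p = p ∧ p ≠ 0 ∧
      (∀ n, ‖henon^[n] p‖ < ε) ∧ (Jac N p).trace = T ∧ 2 < T) ∧
    (∃ (p : ℂ × ℂ) (N : ℕ) (T : ℝ), 0 < N ∧ Even N ∧ henon^[N] p = p ∧ p ≠ 0 ∧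
      (∀ n, ‖henon^[n] p‖ < ε) ∧ (Jac N p).trace = T ∧ -2 ≤ T ∧ T ≤ 2) := by
  have hM := O.hM
  have hr := O.r_le
  have ht : Tendsto (fun k : ℕ => ell / ((2 * k + 1 : ℕ) : ℝ)) atTop (𝓝 0) :=
    tendsto_const_nhds.div_atTop (tendsto_natCast_atTop_atTop.comp
      (tendsto_atTop_mono (fun k => by simp only [id]; omega) tendsto_id))
  have hev : ∀ c e : ℝ, 0 < e → ∀ᶠ k : ℕ in atTop, c * (ell / ((2 * k + 1 : ℕ) : ℝ)) < e := by
    intro c e he
    have := ht.const_mul c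
    rw [mul_zero] at this
    exact this.eventually (gt_mem_nhds he)
  obtain ⟨k, h1, h2, h3⟩ := ((hev O.C 1 one_pos).and ((hev (2 * O.b * (O.C + 32 * O.M))
    (O.r / 2000) (by linarith [O.r_pos])).and (hev (5 * O.M) ε hε))).exists
  set δ := ell / ((2 * k + 1 : ℕ) : ℝ) with hδd
  have hδ : 0 < δ := div_pos (by linarith [one_le_ell]) (by positivity)
  have hk : ((2 * k + 1 : ℕ) : ℝ) * δ = ell := by rw [hδd]; field_simp
  have hmu : ∀ μ : ℂ, ‖μ - 1‖ ≤ O.r → μ ≠ 0 := by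
    rintro μ h rfl
    simp at h; linarith
  set t : ℂ × ℂ → ℝ := fun q =>
    (Nmat O.j (Jac (2 * k + 1) (((2 * δ : ℝ) : ℂ) • O.Θ q))).trace.re with htd
  have hreal : ∀ z μ : ℂ, |z.im| ≤ O.r → ‖μ - 1‖ ≤ O.r →
      (t (z, μ) : ℂ) = (Nmat O.j (Jac (2 * k + 1) (((2 * δ : ℝ) : ℂ) • O.Θ (z, μ)))).trace := by
    intro z μ hz hμ
    obtain ⟨α, β, γ, δ', -, -, h⟩ := O.exists_M hδ k (z := z) (by linarith) (hmu μ hμ)
    simp only [htd]
    rw [← conj_eq_iff_re, h]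
    simp only [map_add, map_mul, conj_conj]
    ring
  have main := (O.setup δ k hδ h1.le hk (by linarith)).core t (by
    intro z μ hz hμ h
    have h' := (O.Γ_eq_iff hδ _ z μ μ).mp h
    refine ⟨fun h2 => ?_, ?_⟩
    · have := hreal z μ hz hμ
      rw [h2] at this
      exact trace_ne_two O.hj (by positivity) (six_period O.j_cube h').1 k
        (by rw [← this]; simp)
    · obtain ⟨α, β, γ, δ', a1, a2, a3⟩ := O.exists_M hδ k (z := z)
        (lt_of_le_of_lt hz (by change O.r < _; linarith)) (hmu μ hμ)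
      exact ⟨α, β, γ, δ', a1, a2, (hreal z μ hz hμ).trans a3⟩)
  have fin : ∀ z μ : ℂ, |z.im| ≤ O.r → ‖μ - 1‖ ≤ O.r →
      O.Γ δ (2 * k + 1) (z, μ) = O.Θ (conj z + ell, conj μ) →
      ∃ p : ℂ × ℂ, henon^[6 * (2 * k + 1)] p = p ∧ p ≠ 0 ∧ (∀ n, ‖henon^[n] p‖ < ε) ∧
        (Jac (6 * (2 * k + 1)) p).trace = ((t (z, μ) ^ 3 - 3 * t (z, μ) : ℝ) : ℂ) := by
    intro z μ hz hμ h
    have h' := (O.Γ_eq_iff hδ _ z μ μ).mp h
    have h6 := six_period O.j_cube h'
    refine ⟨_, h6.1, ?_, fun n => ?_, ?_⟩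
    · have h0 : ((2 * δ : ℝ) : ℂ) ≠ 0 := ofReal_ne_zero.mpr (by positivity)
      refine smul_ne_zero h0 fun h0 => O.E_ne ?_
      have a1 : μ * O.u z = 0 := congrArg Prod.fst h0
      have a2 : μ * O.v z = 0 := congrArg Prod.snd h0
      rw [← O.E_const (z := z) (by linarith), (mul_eq_zero.mp a1).resolve_left (hmu μ hμ),
        (mul_eq_zero.mp a2).resolve_left (hmu μ hμ), sub_self]
    · refine lt_of_le_of_lt (orbit_bound O.j_cube (by positivity) h' (R := 5 * O.M * δ) ?_ n) h3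
      intro n hn
      have hn1 : (n : ℝ) * δ ≤ ell := by
        rw [← hk]; gcongr
      have hδ2 : δ ≤ 1 / 16 := by have := O.one_le_C; nlinarith
      have a := O.approx hδ h1.le (z := z) (μ := μ) (by linarith) (by linarith) n
        (hn1.trans ell_le_two)
      have b1 := O.norm_U hδ (z := z) (μ := μ) (by linarith) (by linarith) (n := n)
        (by linarith [ell_le_two])
      have b2 := O.norm_U hδ (z := z) (μ := μ) (by linarith) (by linarith) (n := n + 1)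
        (by push_cast; linarith [ell_le_two])
      have b3 : ‖((O.U δ z μ n, O.U δ z μ (n + 1)) : ℂ × ℂ)‖ ≤ 4 * O.M * δ :=
        norm_prod_le_iff.mpr ⟨b1, b2⟩
      have b4 := norm_sub_norm_le (henon^[n] (((2 * δ : ℝ) : ℂ) • O.Θ (z, μ)))
        ((O.U δ z μ n, O.U δ z μ (n + 1)) : ℂ × ℂ)
      nlinarith
    · have hd : (Nmat O.j (Jac (2 * k + 1) (((2 * δ : ℝ) : ℂ) • O.Θ (z, μ)))).det = 1 := by
        have d1 : ∀ a : ℂ, (Dg a).det = a ^ 3 := fun a => by rw [Dg, det_fin_two_of]; ring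
        have d2 : ∀ A : Matrix (Fin 2) (Fin 2) ℂ, (A.map conj).det = conj A.det :=
          fun A => (RingHom.map_det conj A).symm
        rw [Nmat, det_mul, det_mul, det_mul, d1, d1, d2, Jac_det, (odd_two_mul_add_one k).neg_one_pow]
        simp only [map_neg, map_one]
        linear_combination (O.j ^ 6 + O.j ^ 3 + 1) * O.j_cube
      rw [h6.2, trace_cube hd, ← hreal z μ hz hμ]
      push_cast; ring
  have ev : Even (6 * (2 * k + 1)) := ⟨3 * (2 * k + 1), by ring⟩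
  obtain ⟨⟨z, μ, a1, a2, a3, a4⟩, ⟨z', μ', b1, b2, b3, b4, b5⟩⟩ := main
  constructor
  · obtain ⟨p, c1, c2, c3, c4⟩ := fin z μ a1 a2 a3
    refine ⟨p, _, _, by positivity, ev, c1, c2, c3, c4, ?_⟩
    nlinarith [mul_pos (sub_pos.mpr a4) (by positivity : 0 < (t (z, μ) + 1) ^ 2)]
  · obtain ⟨p, c1, c2, c3, c4⟩ := fin z' μ' b1 b2 b3
    refine ⟨p, _, _, by positivity, ev, c1, c2, c3, c4, ?_, ?_⟩
    · nlinarith [mul_nonneg (by linarith : 0 ≤ t (z', μ') + 2) (sq_nonneg (t (z', μ') - 1))]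
    · nlinarith [mul_nonneg (by linarith : 0 ≤ 2 - t (z', μ')) (sq_nonneg (t (z', μ') + 1))]

end Orb

theorem small_cycles (U : Set (ℂ × ℂ)) (hU : U ∈ 𝓝 (0 : ℂ × ℂ)) :
    (∃ p ∈ Function.periodicPts henon, (∀ k : ℕ, henon^[k] p ∈ U \ {0}) ∧ ∃ a b : ℂ,
      (fderiv ℂ (henon^[Function.minimalPeriod henon p]) p).toLinearMap.charpoly.roots = {a, b} ∧
        ‖a‖ < 1 ∧ 1 < ‖b‖) ∧
    (∃ p ∈ Function.periodicPts henon, (∀ k : ℕ, henon^[k] p ∈ U \ {0}) ∧ ∃ a b : ℂ,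
      (fderiv ℂ (henon^[Function.minimalPeriod henon p]) p).toLinearMap.charpoly.roots = {a, b} ∧
        ‖a‖ = 1 ∧ ‖b‖ = 1) := by
  obtain ⟨O⟩ := nonempty_orb
  obtain ⟨ε, hε, hsub⟩ := Metric.mem_nhds_iff.mp hU
  obtain ⟨⟨p, N, T, a1, a2, a3, a4, a5, a6, a7⟩, ⟨p', N', T', b1, b2, b3, b4, b5, b6, b7, b8⟩⟩ :=
    O.cycles ε hε
  exact ⟨⟨p, Function.mk_mem_periodicPts a1 a3,
      fun k => ⟨hsub (mem_ball_zero_iff.mpr (a5 k)), iter_ne_zero a4 k⟩,
      (multipliers a1 a2 a3 a6).1 a7⟩,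
    ⟨p', Function.mk_mem_periodicPts b1 b3,
      fun k => ⟨hsub (mem_ball_zero_iff.mpr (b5 k)), iter_ne_zero b4 k⟩,
      (multipliers b1 b2 b3 b6).2 b7 b8⟩⟩

end Pool.Agent.P.MP_c8d52e_an
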