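import Pool.Agent.P.MP_c8d52e_an.Theta

/-! A closed orbit, with its symmetries, of the vector field `u' = v ^ 2`, `v' = u ^ 2`. -/

namespace Pool.Agent.P.MP_c8d52e_an

open Complex ComplexConjugate

noncomputable def beta (ρ : ℝ) (k : ℤ) : ℂ := 1 / ((I * ρ) ^ k - (I * ρ) ^ (-k))

lemma beta_neg (ρ : ℝ) (k : ℤ) : beta ρ (-k) = -beta ρ k := by
  unfold beta
  rw [neg_neg, ← neg_sub ((I * ρ) ^ k), one_div, one_div, inv_neg]

lemma norm_beta_nat {ρ : ℝ} (h0 : 0 < ρ) (h1 : ρ ≤ 9 / 20) {k : ℕ} (hk : 1 ≤ k) :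
    ‖beta ρ k‖ ≤ 4 / 3 * ρ ^ k := by
  have hx : ‖(I * ρ : ℂ) ^ (k : ℤ)‖ = ρ ^ k := by
    rw [zpow_natCast, norm_pow, norm_mul, norm_I, one_mul, norm_real, Real.norm_eq_abs, abs_of_pos h0]
  have hy : ‖(I * ρ : ℂ) ^ (-(k : ℤ))‖ = (ρ ^ k)⁻¹ := by
    rw [zpow_neg, norm_inv, hx]
  have hp : 0 < ρ ^ k := pow_pos h0 k
  have hle : ρ ^ k ≤ 1 / 2 := by
    calc ρ ^ k ≤ ρ ^ 1 := pow_le_pow_of_le_one h0.le (by linarith) hk
      _ ≤ 1 / 2 := by linarith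
  have h2 : (ρ ^ k)⁻¹ - ρ ^ k ≤ ‖(I * ρ : ℂ) ^ (k : ℤ) - (I * ρ : ℂ) ^ (-(k : ℤ))‖ := by
    rw [norm_sub_rev, ← hy]
    have := norm_sub_norm_le ((I * ρ : ℂ) ^ (-(k : ℤ))) ((I * ρ : ℂ) ^ (k : ℤ))
    rw [hx] at this; exact this
  have h3 : 3 / 4 * (ρ ^ k)⁻¹ ≤ (ρ ^ k)⁻¹ - ρ ^ k := by
    have : ρ ^ k ≤ 1 / 4 * (ρ ^ k)⁻¹ := by
      rw [← div_eq_mul_inv, le_div_iff₀ hp]; nlinarith
    linarith
  have h4 : 0 < 3 / 4 * (ρ ^ k)⁻¹ := by positivity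
  unfold beta
  rw [norm_div, norm_one]
  calc 1 / ‖(I * ρ : ℂ) ^ (k : ℤ) - (I * ρ : ℂ) ^ (-(k : ℤ))‖ ≤ 1 / (3 / 4 * (ρ ^ k)⁻¹) :=
        one_div_le_one_div_of_le h4 (h3.trans h2)
    _ = 4 / 3 * ρ ^ k := by field_simp

lemma norm_beta {ρ : ℝ} (h0 : 0 < ρ) (h1 : ρ ≤ 9 / 20) {k : ℤ} (hk : k ≠ 0) :
    ‖beta ρ k‖ ≤ 4 / 3 * ρ ^ k.natAbs := by
  have hk1 : 1 ≤ k.natAbs := Int.natAbs_pos.mpr hk
  rcases Int.natAbs_eq k with h | h
  · have := norm_beta_nat h0 h1 hk1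
    rwa [← h] at this
  · have := norm_beta_nat h0 h1 hk1
    rwa [← norm_neg, ← beta_neg, ← h] at this

lemma zpow_ne_one_of {P : ℝ} (hP : |P| ≤ 1 / 4) (hP0 : P ≠ 0) {k : ℤ} (hk : k ≠ 0) :
    P ^ k ≠ 1 := by
  intro h
  have h2 : |P| ^ k = 1 := by rw [← abs_zpow, h, abs_one]
  have := (zpow_eq_one_iff_right₀ (abs_pos.mpr hP0).le (by linarith : |P| ≠ 1)).mp h2
  exact hk this

lemma beta_mul {ρ : ℝ} (h0 : 0 < ρ) (h1 : ρ ≤ 9 / 20) {a k : ℤ} (ha : a ≠ 0) (hk : k ≠ 0)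
    (hak : a + k ≠ 0) :
    beta ρ a * beta ρ (-k - a) =
      -beta ρ k * ((phi (-ρ ^ 2) a - phi (-ρ ^ 2) (a + k) : ℝ) : ℂ) := by
  have hP : |(-ρ ^ 2)| ≤ 1 / 4 := by
    rw [abs_neg, abs_of_nonneg (sq_nonneg _)]; nlinarith
  have hP0 : -ρ ^ 2 ≠ 0 := by have := pow_pos h0 2; linarith
  have hη : (I * ρ : ℂ) ≠ 0 := mul_ne_zero I_ne_zero (ofReal_ne_zero.mpr h0.ne')
  have hsq : ∀ n : ℤ, (((-ρ ^ 2) ^ n : ℝ) : ℂ) = ((I * ρ : ℂ) ^ n) ^ 2 := by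
    intro n
    have : (I * ρ : ℂ) * (I * ρ) = -ρ ^ 2 := by linear_combination (ρ : ℂ) ^ 2 * I_sq
    rw [sq ((I * ρ : ℂ) ^ n), ← mul_zpow, this]
    push_cast; rfl
  have hne : ∀ n : ℤ, n ≠ 0 → ((I * ρ : ℂ) ^ n) ^ 2 - 1 ≠ 0 := by
    intro n hn h
    rw [← hsq, sub_eq_zero] at h
    exact zpow_ne_one_of hP hP0 hn (by exact_mod_cast h)
  have e1 := hne a ha
  have e2 := hne k hk
  have e3 := hne _ hak
  unfold beta phi
  rw [ofReal_sub, ofReal_div, ofReal_div, ofReal_sub, ofReal_sub, hsq, hsq, ofReal_one]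
  rw [show -k - a = -(a + k) by ring, neg_neg, zpow_neg, zpow_neg, zpow_neg]
  rw [zpow_add₀ hη] at e3 ⊢
  have hx : (I * ρ : ℂ) ^ a ≠ 0 := zpow_ne_zero _ hη
  have hy : (I * ρ : ℂ) ^ k ≠ 0 := zpow_ne_zero _ hη
  generalize (I * ρ : ℂ) ^ a = x at *
  generalize (I * ρ : ℂ) ^ k = y at *
  have f1 : x - x⁻¹ = (x ^ 2 - 1) / x := by field_simp
  have f2 : y - y⁻¹ = (y ^ 2 - 1) / y := by field_simp
  have f3 : (x * y)⁻¹ - x * y = -(((x * y) ^ 2 - 1) / (x * y)) := by field_simp; ring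
  rw [f1, f2, f3]
  generalize hw : (x * y) ^ 2 - 1 = w at *
  field_simp
  linear_combination -hw

lemma conj_beta (ρ : ℝ) (k : ℤ) : conj (beta ρ k) = (-1) ^ k * beta ρ k := by
  unfold beta
  have h : conj (I * ρ : ℂ) = (-1) * (I * ρ) := by simp
  have hs : ((-1 : ℂ) ^ k) * ((-1 : ℂ) ^ k) = 1 := by
    rw [← mul_zpow]; simp
  have hi : ((-1 : ℂ) ^ k)⁻¹ = (-1 : ℂ) ^ k := inv_eq_of_mul_eq_one_right hs
  rw [map_div₀, map_one, map_sub, map_zpow₀, map_zpow₀, h, mul_zpow (-1 : ℂ), mul_zpow (-1 : ℂ), zpow_neg (-1 : ℂ),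
    hi, ← mul_sub, one_div, mul_inv, hi, one_div]

noncomputable def term (ρ : ℝ) (n : ℤ) (z : ℂ) : ℂ :=
  -3 * I * beta ρ (3 * n + 1) * exp (I * ((3 * n + 1 : ℤ) : ℂ) * z)

noncomputable def uu (ρ : ℝ) (z : ℂ) : ℂ := ∑' n : ℤ, term ρ n z

lemma exp_half_le : Real.exp (1 / 2) ≤ 2 := by
  have h : Real.exp (1 / 2) ^ 2 = Real.exp 1 := by rw [← Real.exp_nat_mul]; norm_num
  have h2 := Real.exp_one_lt_d9
  have h3 := Real.exp_pos (1 / 2)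
  nlinarith

lemma norm_exp_le (k : ℤ) {z : ℂ} (hz : |z.im| < 1 / 2) :
    ‖exp (I * (k : ℂ) * z)‖ ≤ 2 ^ k.natAbs := by
  rw [norm_exp]
  have h1 : (I * (k : ℂ) * z).re = -(k * z.im) := by simp
  have h2 : -(k * z.im) ≤ (k.natAbs : ℝ) * (1 / 2) := by
    have h3 : |(k : ℝ) * z.im| ≤ (k.natAbs : ℝ) * (1 / 2) := by
      rw [abs_mul, Nat.cast_natAbs, Int.cast_abs]
      exact mul_le_mul_of_nonneg_left hz.le (abs_nonneg _)
    have := neg_abs_le ((k : ℝ) * z.im)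
    linarith
  rw [h1]
  calc Real.exp (-(k * z.im)) ≤ Real.exp ((k.natAbs : ℝ) * (1 / 2)) := Real.exp_le_exp.mpr h2
    _ = Real.exp (1 / 2) ^ k.natAbs := Real.exp_nat_mul _ _
    _ ≤ 2 ^ k.natAbs := pow_le_pow_left₀ (Real.exp_pos _).le exp_half_le _

lemma norm_term {ρ : ℝ} (h0 : 0 < ρ) (h1 : ρ ≤ 9 / 20) (n : ℤ) {z : ℂ} (hz : |z.im| < 1 / 2) :
    ‖term ρ n z‖ ≤ 4 * (9 / 10 : ℝ) ^ (3 * n + 1).natAbs := by
  unfold term
  have hb := norm_beta h0 h1 (k := 3 * n + 1) (by omega)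
  have he := norm_exp_le (3 * n + 1) hz
  rw [norm_mul, norm_mul, norm_mul, norm_I, norm_neg]
  have h3 : ‖(3 : ℂ)‖ = 3 := by simp
  rw [h3]
  set k := (3 * n + 1).natAbs
  have h4 : ρ ^ k * 2 ^ k ≤ (9 / 10 : ℝ) ^ k := by
    rw [← mul_pow]; exact pow_le_pow_left₀ (by positivity) (by linarith) _
  calc 3 * 1 * ‖beta ρ (3 * n + 1)‖ * ‖exp (I * ((3 * n + 1 : ℤ) : ℂ) * z)‖
      ≤ 3 * 1 * (4 / 3 * ρ ^ k) * 2 ^ k := by gcongr
    _ = 4 * (ρ ^ k * 2 ^ k) := by ring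
    _ ≤ _ := by gcongr

lemma hasSum_geom3 {q : ℝ} (h0 : 0 ≤ q) (h1 : q < 1) :
    HasSum (fun n : ℤ => q ^ (3 * n + 1).natAbs) (q * (1 - q ^ 3)⁻¹ + q ^ 2 * (1 - q ^ 3)⁻¹) := by
  have hg := hasSum_geometric_of_lt_one (r := q ^ 3) (by positivity)
    (pow_lt_one₀ h0 h1 (by norm_num))
  refine HasSum.of_nat_of_neg_add_one ?_ ?_
  · refine hasSum_congr2 (hg.mul_left q) (fun n => ?_) rfl
    rw [show (3 * (n : ℤ) + 1).natAbs = 3 * n + 1 by omega, pow_add, pow_mul]; ring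
  · refine hasSum_congr2 (hg.mul_left (q ^ 2)) (fun n => ?_) rfl
    rw [show (3 * (-((n : ℤ) + 1)) + 1).natAbs = 3 * n + 2 by omega, pow_add, pow_mul]; ring

lemma summable_bound : Summable fun n : ℤ => 4 * (9 / 10 : ℝ) ^ (3 * n + 1).natAbs :=
  (hasSum_geom3 (q := 9 / 10) (by norm_num) (by norm_num)).summable.mul_left 4

lemma hasDerivAt_term (ρ : ℝ) (n : ℤ) (z : ℂ) :
    HasDerivAt (term ρ n) (I * ((3 * n + 1 : ℤ) : ℂ) * term ρ n z) z := by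
  unfold term
  have h := (((hasDerivAt_id z).const_mul (I * ((3 * n + 1 : ℤ) : ℂ))).cexp).const_mul
    (-3 * I * beta ρ (3 * n + 1))
  refine h.congr_deriv ?_
  simp only [id]; ring

lemma isOpen_strip (η : ℝ) : IsOpen {z : ℂ | |z.im| < η} :=
  isOpen_lt (by fun_prop) continuous_const

lemma hasSum_deriv_uu {ρ : ℝ} (h0 : 0 < ρ) (h1 : ρ ≤ 9 / 20) {z : ℂ} (hz : |z.im| < 1 / 2) :
    DifferentiableAt ℂ (uu ρ) z ∧
      HasSum (fun n : ℤ => I * ((3 * n + 1 : ℤ) : ℂ) * term ρ n z) (deriv (uu ρ) z) := by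
  have hd : ∀ n : ℤ, DifferentiableOn ℂ (term ρ n) {z : ℂ | |z.im| < 1 / 2} :=
    fun n w _ => (hasDerivAt_term ρ n w).differentiableAt.differentiableWithinAt
  have hb : ∀ (n : ℤ) (w : ℂ), w ∈ {z : ℂ | |z.im| < 1 / 2} →
      ‖term ρ n w‖ ≤ 4 * (9 / 10 : ℝ) ^ (3 * n + 1).natAbs := fun n w hw => norm_term h0 h1 n hw
  refine ⟨(differentiableOn_tsum_of_summable_norm summable_bound hd (isOpen_strip _) hb).differentiableAt
    ((isOpen_strip _).mem_nhds hz), ?_⟩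
  exact hasSum_congr2 (hasSum_deriv_of_summable_norm summable_bound hd (isOpen_strip _) hb hz)
    (fun n => (hasDerivAt_term ρ n z).deriv.symm) rfl

lemma summable_norm_term {ρ : ℝ} (h0 : 0 < ρ) (h1 : ρ ≤ 9 / 20) {z : ℂ} (hz : |z.im| < 1 / 2) :
    Summable fun n : ℤ => ‖term ρ n z‖ :=
  Summable.of_nonneg_of_le (fun _ => norm_nonneg _) (fun n => norm_term h0 h1 n hz) summable_bound

def convEquiv : ℤ × ℤ ≃ ℤ × ℤ where
  toFun p := (p.2, -p.1 - 1 - p.2)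
  invFun p := (-p.1 - p.2 - 1, p.1)
  left_inv p := by ext <;> simp; ring
  right_inv p := by ext <;> simp

lemma hasDerivAt_uu {ρ : ℝ} (h0 : 0 < ρ) (h1 : ρ ≤ 9 / 20)
    (hA : ∑' i : ℕ, (psi (-ρ ^ 2) (3 * i + 2) - psi (-ρ ^ 2) (3 * i + 1)) = 1 / 6)
    {z : ℂ} (hz : |z.im| < 1 / 2) : HasDerivAt (uu ρ) (uu ρ (-z) ^ 2) z := by
  obtain ⟨hd, hs⟩ := hasSum_deriv_uu h0 h1 hz
  have hP : |(-ρ ^ 2)| ≤ 1 / 4 := by
    rw [abs_neg, abs_of_nonneg (sq_nonneg _)]; nlinarith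
  have hP0 : -ρ ^ 2 ≠ 0 := by have := pow_pos h0 2; linarith
  have hz' : |(-z).im| < 1 / 2 := by simpa using hz
  have hsn := summable_norm_term h0 h1 hz'
  have hu : HasSum (fun n : ℤ => term ρ n (-z)) (uu ρ (-z)) := hsn.of_norm.hasSum
  have hsp : Summable fun x : ℤ × ℤ => term ρ x.1 (-z) * term ρ x.2 (-z) :=
    summable_mul_of_summable_norm (f := fun n : ℤ => term ρ n (-z))
      (g := fun n : ℤ => term ρ n (-z)) hsn hsn
  have hprod : HasSum (fun x : ℤ × ℤ => term ρ x.1 (-z) * term ρ x.2 (-z))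
      (uu ρ (-z) * uu ρ (-z)) :=
    HasSum.mul (f := fun n : ℤ => term ρ n (-z)) (g := fun n : ℤ => term ρ n (-z)) hu hu hsp
  have hprod2 := convEquiv.hasSum_iff.mpr hprod
  have hfib : ∀ l : ℤ, HasSum (fun n : ℤ =>
      ((fun x : ℤ × ℤ => term ρ x.1 (-z) * term ρ x.2 (-z)) ∘ convEquiv) (l, n))
      (I * ((3 * l + 1 : ℤ) : ℂ) * term ρ l z) := by
    intro l
    have h := (hasSum_ofReal.mpr (hasSum_phi hP hP0 hA l)).mul_left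
      (9 * beta ρ (3 * l + 1) * exp (I * ((3 * l + 1 : ℤ) : ℂ) * z))
    refine hasSum_congr2 h (fun n => ?_) ?_
    · have hm := beta_mul h0 h1 (a := 3 * n + 1) (k := 3 * l + 1) (by omega) (by omega) (by omega)
      have he : exp (I * ((3 * n + 1 : ℤ) : ℂ) * (-z)) * exp (I * ((3 * (-l - 1 - n) + 1 : ℤ) : ℂ) * (-z))
          = exp (I * ((3 * l + 1 : ℤ) : ℂ) * z) := by
        rw [← exp_add]; congr 1; push_cast; ring
      simp only [Function.comp, convEquiv, Equiv.coe_fn_mk, term]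
      rw [show 3 * (-l - 1 - n) + 1 = -(3 * l + 1) - (3 * n + 1) by ring] at he ⊢
      rw [← he]
      linear_combination (exp := 1) (9 * I ^ 2 * exp (I * ((3 * n + 1 : ℤ) : ℂ) * (-z)) *
        exp (I * ((-(3 * l + 1) - (3 * n + 1) : ℤ) : ℂ) * (-z))) * hm
        - 9 * (beta ρ (3 * l + 1) * ((phi (-ρ ^ 2) (3 * n + 1) -
          phi (-ρ ^ 2) (3 * n + 1 + (3 * l + 1)) : ℝ) : ℂ) * exp (I * ((3 * n + 1 : ℤ) : ℂ) * (-z)) *
        exp (I * ((-(3 * l + 1) - (3 * n + 1) : ℤ) : ℂ) * (-z))) * I_sq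
    · unfold term
      push_cast
      linear_combination (-3 * (3 * (l : ℂ) + 1) * beta ρ (3 * l + 1) *
        exp (I * (3 * (l : ℂ) + 1) * z)) * I_sq
  have h3 := hprod2.prod_fiberwise hfib
  have h4 := hs.unique h3
  rw [sq, ← h4]
  exact hd.hasDerivAt

lemma uu_zero_ne {ρ : ℝ} (h0 : 0 < ρ) (h1 : ρ ≤ 9 / 20) : uu ρ 0 ≠ 0 := by
  intro h
  have hs : Summable fun n : ℤ => term ρ n 0 := (summable_norm_term h0 h1 (by simp)).of_norm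
  unfold uu at h
  rw [hs.tsum_eq_add_tsum_ite 0] at h
  have hg := ((hasSum_geom3 (q := ρ) h0.le (by linarith)).sub (hasSum_ite_eq (0 : ℤ) ρ)).mul_left 4
  have h2 := tsum_of_norm_bounded hg (f := fun n : ℤ => if n = 0 then 0 else term ρ n 0) (by
    intro n
    by_cases hn : n = 0
    · subst hn; simp
    · simp only [if_neg hn, sub_zero, term, mul_zero, exp_zero, mul_one]
      have hb := norm_beta h0 h1 (k := 3 * n + 1) (by omega)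
      rw [norm_mul, norm_mul, norm_I, norm_neg]
      have h3 : ‖(3 : ℂ)‖ = 3 := by simp
      rw [h3]; linarith)
  have hρ : (ρ : ℂ) ≠ 0 := ofReal_ne_zero.mpr h0.ne'
  have hρ2 : (1 + ρ ^ 2 : ℂ) ≠ 0 := by
    have : (0 : ℝ) < 1 + ρ ^ 2 := by positivity
    exact_mod_cast this.ne'
  have h3 : term ρ 0 0 = ((-(3 * ρ / (1 + ρ ^ 2)) : ℝ) : ℂ) := by
    have e : (I * ρ : ℂ) ^ (1 : ℤ) - (I * ρ : ℂ) ^ (-1 : ℤ) = I * (1 + ρ ^ 2) / ρ := by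
      rw [zpow_neg, zpow_one, mul_inv, inv_I]; field_simp; ring
    simp only [term, beta, mul_zero, zero_add, exp_zero, mul_one, e]
    push_cast
    field_simp
  have h4 : ‖term ρ 0 0‖ = 3 * ρ / (1 + ρ ^ 2) := by
    rw [h3, norm_real, Real.norm_eq_abs, abs_neg, abs_of_pos (by positivity)]
  rw [← neg_eq_of_add_eq_zero_right h, norm_neg, h4, div_le_iff₀ (by positivity)] at h2
  have h5 : ρ ^ 2 ≤ 81 / 400 := by nlinarith
  have h6 : ρ ^ 3 ≤ 1 / 10 := by nlinarith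
  have h7 : (1 - ρ ^ 3)⁻¹ ≤ 1 + 10 / 9 * ρ ^ 3 := by
    rw [inv_le_comm₀ (by linarith) (by positivity), inv_eq_one_div, div_le_iff₀ (by positivity)]
    have : 0 < ρ ^ 3 := by positivity
    nlinarith
  have h8 : ρ * (1 - ρ ^ 3)⁻¹ + ρ ^ 2 * (1 - ρ ^ 3)⁻¹ - ρ ≤ 62 / 100 * ρ := by
    have a1 : ρ * (1 - ρ ^ 3)⁻¹ ≤ ρ * (1 + 10 / 9 * ρ ^ 3) := by gcongr
    have a2 : ρ ^ 2 * (1 - ρ ^ 3)⁻¹ ≤ ρ ^ 2 * (1 + 10 / 9 * ρ ^ 3) := by gcongr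
    have a3 : ρ ^ 3 ≤ 92 / 1000 := by nlinarith
    have a4 : ρ ^ 2 * (1 + 10 / 9 * ρ ^ 3) ≤ (ρ * (9 / 20)) * (1 + 10 / 9 * (92 / 1000)) := by
      rw [sq]; gcongr
    nlinarith
  nlinarith

noncomputable def jj : ℂ := exp (2 * Real.pi * I / 3)

lemma jj_root : jj ^ 2 + jj + 1 = 0 := by
  have h := Complex.isPrimitiveRoot_exp 3 (by norm_num)
  have h2 := h.geom_sum_eq_zero (by norm_num)
  simp only [Finset.sum_range_succ, Finset.range_zero, Finset.sum_empty, pow_zero, pow_one] at h2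
  unfold jj
  push_cast at h2
  linear_combination h2

lemma exp_third (n : ℤ) : exp (I * ((3 * n + 1 : ℤ) : ℂ) * (Real.pi / 3)) =
    jj ^ 2 * (-1) ^ (3 * n + 1) := by
  have h1 : (-1 : ℂ) ^ (3 * n + 1) = exp (((3 * n + 1 : ℤ) : ℂ) * (Real.pi * I)) := by
    rw [exp_int_mul, exp_pi_mul_I]
  unfold jj
  rw [h1, ← exp_nat_mul, ← exp_add, exp_eq_exp_iff_exists_int]
  refine ⟨-n - 1, ?_⟩
  push_cast; ring

lemma exp_neg_third (n : ℤ) : exp (I * ((3 * n + 1 : ℤ) : ℂ) * (-(Real.pi / 3))) =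
    jj * (-1) ^ (3 * n + 1) := by
  have h1 : (-1 : ℂ) ^ (3 * n + 1) = exp (((3 * n + 1 : ℤ) : ℂ) * (Real.pi * I)) := by
    rw [exp_int_mul, exp_pi_mul_I]
  unfold jj
  rw [h1, ← exp_add, exp_eq_exp_iff_exists_int]
  refine ⟨-2 * n - 1, ?_⟩
  push_cast; ring

lemma conj_term (ρ : ℝ) (n : ℤ) (z : ℂ) :
    conj (term ρ n (conj z)) = -((-1) ^ (3 * n + 1) * term ρ n (-z)) := by
  unfold term
  rw [map_mul, map_mul, map_mul, conj_beta, ← exp_conj, map_mul, map_mul, conj_conj, conj_I,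
    map_intCast, map_neg, map_ofNat]
  rw [show -I * ((3 * n + 1 : ℤ) : ℂ) * z = I * ((3 * n + 1 : ℤ) : ℂ) * -z by ring]
  ring

lemma term_add (ρ : ℝ) (n : ℤ) (z w : ℂ) :
    term ρ n (z + w) = exp (I * ((3 * n + 1 : ℤ) : ℂ) * w) * term ρ n z := by
  unfold term
  rw [mul_add, exp_add]; ring

theorem exists_orbit : ∃ (u v : ℂ → ℂ) (j : ℂ) (M : ℝ), j ^ 2 + j + 1 = 0 ∧ 1 ≤ M ∧
    (∀ z : ℂ, |z.im| < 1 / 2 →
      HasDerivAt u (v z ^ 2) z ∧ HasDerivAt v (u z ^ 2) z ∧ ‖u z‖ ≤ M ∧ ‖v z‖ ≤ M) ∧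
    (∀ z, v z = -u (-z)) ∧
    (∀ z, v (z + Real.pi / 3) = j * conj (u (conj z))) ∧
    (∀ z, u (z + Real.pi / 3) = j ^ 2 * conj (v (conj z))) ∧
    (∀ z, u (z + 2 * Real.pi) = u z) ∧ u 0 ≠ 0 := by
  obtain ⟨ρ, h0, h1, hA⟩ := exists_rho
  have hb : ∀ z : ℂ, |z.im| < 1 / 2 →
      ‖uu ρ z‖ ≤ max 1 (∑' n : ℤ, 4 * (9 / 10 : ℝ) ^ (3 * n + 1).natAbs) := fun z hz =>
    (tsum_of_norm_bounded summable_bound.hasSum (fun n => norm_term h0 h1 n hz)).trans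
      (le_max_right _ _)
  refine ⟨uu ρ, fun z => -uu ρ (-z), jj,
    max 1 (∑' n : ℤ, 4 * (9 / 10 : ℝ) ^ (3 * n + 1).natAbs), jj_root, le_max_left 1 _, fun z hz => ?_,
    fun z => rfl, fun z => ?_, fun z => ?_, fun z => ?_, uu_zero_ne h0 h1⟩
  · have hz' : |(-z).im| < 1 / 2 := by simpa using hz
    refine ⟨?_, ?_, hb z hz, ?_⟩
    · simpa using hasDerivAt_uu h0 h1 hA hz
    · have h := ((hasDerivAt_uu h0 h1 hA hz').comp z (hasDerivAt_neg z)).neg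
      refine HasDerivAt.congr_deriv h ?_
      simp
    · rw [norm_neg]; exact hb _ hz'
  · simp only [uu]
    rw [conj_tsum, ← tsum_mul_left, ← tsum_neg]
    refine tsum_congr fun n => ?_
    rw [conj_term, neg_add, term_add, exp_neg_third]; ring
  · simp only [uu]
    rw [map_neg, conj_tsum, ← tsum_neg, ← tsum_mul_left]
    refine tsum_congr fun n => ?_
    rw [← map_neg conj z, conj_term, neg_neg z, term_add, exp_third]; ring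
  · simp only [uu]
    refine tsum_congr fun n => ?_
    rw [term_add, show I * ((3 * n + 1 : ℤ) : ℂ) * (2 * Real.pi) =
      ((3 * n + 1 : ℤ) : ℂ) * (2 * Real.pi * I) by ring, exp_int_mul_two_pi_mul_I, one_mul]

end Pool.Agent.P.MP_c8d52e_an
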