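import Pool.Agent.P.MP_c8d52e_an.Main2

namespace Pool.Agent.Results.MP_c8d52e_an.SmallCycles

/-- The map `H (x, y) = (y, x + y ^ 2)` has small saddle cycles and small elliptic cycles. -/
theorem result :
    ∀ H : ℂ × ℂ → ℂ × ℂ, (∀ x y : ℂ, H (x, y) = (y, x + y ^ 2)) →
      (∀ U ∈ nhds (0 : ℂ × ℂ), ∃ p ∈ Function.periodicPts H,
        (∀ k : ℕ, H^[k] p ∈ U \ {0}) ∧
        ∃ l₁ l₂ : ℂ,
          (fderiv ℂ (H^[Function.minimalPeriod H p]) p).toLinearMap.charpoly.roots = {l₁, l₂} ∧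
          ‖l₁‖ < 1 ∧ 1 < ‖l₂‖) ∧
      (∀ U ∈ nhds (0 : ℂ × ℂ), ∃ p ∈ Function.periodicPts H,
        (∀ k : ℕ, H^[k] p ∈ U \ {0}) ∧
        ∃ l₁ l₂ : ℂ,
          (fderiv ℂ (H^[Function.minimalPeriod H p]) p).toLinearMap.charpoly.roots = {l₁, l₂} ∧
          ‖l₁‖ = 1 ∧ ‖l₂‖ = 1) := by
  intro H hH
  obtain rfl : H = Pool.Agent.P.MP_c8d52e_an.henon := funext fun p => hH p.1 p.2
  exact ⟨fun U hU => (Pool.Agent.P.MP_c8d52e_an.small_cycles U hU).1,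
    fun U hU => (Pool.Agent.P.MP_c8d52e_an.small_cycles U hU).2⟩

end Pool.Agent.Results.MP_c8d52e_an.SmallCycles
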