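import Mathlib

/-! Choice of the nome: a zero of the cubic theta function, by the intermediate value theorem. -/

namespace Pool.Agent.P.MP_c8d52e_an

open Set

noncomputable def psi (P : ℝ) (k : ℕ) : ℝ := P ^ k / (1 - P ^ k)

lemma abs_pow_le_quarter {P : ℝ} (hP : |P| ≤ 1 / 4) {k : ℕ} (hk : 1 ≤ k) : |P ^ k| ≤ 1 / 4 := by
  rw [abs_pow]
  calc |P| ^ k ≤ |P| ^ 1 := pow_le_pow_of_le_one (abs_nonneg _) (by linarith) hk
    _ ≤ 1 / 4 := by simpa using hP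

lemma abs_psi_le {P : ℝ} (hP : |P| ≤ 1 / 4) {k : ℕ} (hk : 1 ≤ k) :
    |psi P k| ≤ 4 / 3 * (1 / 4) ^ k := by
  have h1 := abs_pow_le_quarter hP hk
  have h2 : 3 / 4 ≤ 1 - P ^ k := by
    have := le_abs_self (P ^ k); linarith
  have h3 : |P ^ k| ≤ (1 / 4) ^ k := by
    rw [abs_pow]; exact pow_le_pow_left₀ (abs_nonneg _) hP k
  unfold psi
  rw [abs_div, abs_of_pos (by linarith : (0 : ℝ) < 1 - P ^ k), div_le_iff₀ (by linarith)]
  have : (0 : ℝ) ≤ (1 / 4) ^ k := by positivity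
  nlinarith

lemma abs_psi_le' {P : ℝ} (hP : |P| ≤ 1 / 4) (i c : ℕ) (hc : 1 ≤ c) :
    |psi P (3 * i + c)| ≤ 4 / 3 * (1 / 4) ^ c * (1 / 64) ^ i := by
  have := abs_psi_le hP (k := 3 * i + c) (by omega)
  rw [pow_add, pow_mul] at this
  norm_num at this ⊢
  linarith

lemma summable_psi {P : ℝ} (hP : |P| ≤ 1 / 4) (c : ℕ) (hc : 1 ≤ c) :
    Summable fun i : ℕ => psi P (3 * i + c) := by
  refine Summable.of_norm_bounded (g := fun i : ℕ => 4 / 3 * (1 / 4) ^ c * (1 / 64 : ℝ) ^ i) ?_ ?_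
  · exact (summable_geometric_of_lt_one (by norm_num) (by norm_num)).mul_left _
  · intro i; exact abs_psi_le' hP i c hc

lemma exists_rho : ∃ ρ : ℝ, 0 < ρ ∧ ρ ≤ 9 / 20 ∧
    ∑' i : ℕ, (psi (-ρ ^ 2) (3 * i + 2) - psi (-ρ ^ 2) (3 * i + 1)) = 1 / 6 := by
  set A : ℝ → ℝ := fun ρ => ∑' i : ℕ, (psi (-ρ ^ 2) (3 * i + 2) - psi (-ρ ^ 2) (3 * i + 1)) with hA
  have hP : ∀ ρ ∈ Icc (0 : ℝ) (9 / 20), |(-ρ ^ 2)| ≤ 1 / 4 := by
    intro ρ hρ
    rw [abs_neg, abs_of_nonneg (sq_nonneg _)]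
    nlinarith [hρ.1, hρ.2]
  have hb : ∀ (i : ℕ) (ρ : ℝ), ρ ∈ Icc (0 : ℝ) (9 / 20) →
      ‖psi (-ρ ^ 2) (3 * i + 2) - psi (-ρ ^ 2) (3 * i + 1)‖ ≤ 5 / 12 * (1 / 64 : ℝ) ^ i := by
    intro i ρ hρ
    have h1 := abs_psi_le' (hP ρ hρ) i 2 (by norm_num)
    have h2 := abs_psi_le' (hP ρ hρ) i 1 (by norm_num)
    have h3 := abs_sub (psi (-ρ ^ 2) (3 * i + 2)) (psi (-ρ ^ 2) (3 * i + 1))
    rw [Real.norm_eq_abs]
    norm_num at h1 h2 ⊢
    linarith
  have hsg : Summable fun i : ℕ => 5 / 12 * (1 / 64 : ℝ) ^ i :=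
    (summable_geometric_of_lt_one (by norm_num) (by norm_num)).mul_left _
  have hc : ∀ k : ℕ, 1 ≤ k → ContinuousOn (fun ρ : ℝ => psi (-ρ ^ 2) k) (Icc (0 : ℝ) (9 / 20)) := by
    intro k hk
    unfold psi
    refine ContinuousOn.div (by fun_prop) (by fun_prop) ?_
    intro ρ hρ
    have h1 := abs_pow_le_quarter (hP ρ hρ) hk
    have := le_abs_self ((-ρ ^ 2) ^ k)
    linarith
  have hcont : ContinuousOn A (Icc (0 : ℝ) (9 / 20)) :=
    continuousOn_tsum (fun i => (hc _ (by omega)).sub (hc _ (by omega))) hsg hb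
  have h0 : A 0 = 0 := by simp [hA, psi]
  have h1 : 1 / 6 ≤ A (9 / 20) := by
    have hm : (9 / 20 : ℝ) ∈ Icc (0 : ℝ) (9 / 20) := ⟨by norm_num, le_rfl⟩
    have hs : Summable fun i : ℕ =>
        psi (-(9 / 20 : ℝ) ^ 2) (3 * i + 2) - psi (-(9 / 20 : ℝ) ^ 2) (3 * i + 1) :=
      Summable.of_norm_bounded hsg fun i => hb i _ hm
    simp only [hA]
    rw [hs.tsum_eq_zero_add]
    have hg : HasSum (fun i : ℕ => 5 / 12 * (1 / 64 : ℝ) * (1 / 64 : ℝ) ^ i)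
        (5 / 12 * (1 / 64 : ℝ) * (1 - 1 / 64)⁻¹) :=
      (hasSum_geometric_of_lt_one (by norm_num) (by norm_num)).mul_left _
    have h2 := tsum_of_norm_bounded hg (f := fun i : ℕ =>
        psi (-(9 / 20 : ℝ) ^ 2) (3 * (i + 1) + 2) - psi (-(9 / 20 : ℝ) ^ 2) (3 * (i + 1) + 1))
      (fun i => (hb (i + 1) _ hm).trans (le_of_eq (by ring)))
    rw [Real.norm_eq_abs] at h2
    have h3 := neg_abs_le (∑' i : ℕ, (psi (-(9 / 20 : ℝ) ^ 2) (3 * (i + 1) + 2) -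
      psi (-(9 / 20 : ℝ) ^ 2) (3 * (i + 1) + 1)))
    have h4 : psi (-(9 / 20 : ℝ) ^ 2) (3 * 0 + 2) - psi (-(9 / 20 : ℝ) ^ 2) (3 * 0 + 1) ≥ 1 / 5 := by
      unfold psi; norm_num
    norm_num at h2 h3 h4 ⊢
    linarith
  have hmem : (1 / 6 : ℝ) ∈ Icc (A 0) (A (9 / 20)) := ⟨by rw [h0]; norm_num, h1⟩
  obtain ⟨ρ, hρ, hρA⟩ := intermediate_value_Icc (by norm_num) hcont hmem
  refine ⟨ρ, lt_of_le_of_ne hρ.1 ?_, hρ.2, hρA⟩
  rintro rfl
  rw [h0] at hρA
  norm_num at hρA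

noncomputable def phi (P : ℝ) (n : ℤ) : ℝ := 1 / (P ^ n - 1)

lemma phi_pos {P : ℝ} (hP : |P| ≤ 1 / 4) (k : ℕ) (hk : 1 ≤ k) : phi P k = -1 - psi P k := by
  have h1 := abs_pow_le_quarter hP hk
  have h2 : P ^ k - 1 ≠ 0 := by have := le_abs_self (P ^ k); linarith
  have h3 : 1 - P ^ k ≠ 0 := by have := le_abs_self (P ^ k); linarith
  unfold phi psi
  rw [zpow_natCast]
  field_simp
  ring

lemma phi_neg {P : ℝ} (hP : |P| ≤ 1 / 4) (hP0 : P ≠ 0) (k : ℕ) (hk : 1 ≤ k) :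
    phi P (-k) = psi P k := by
  have h1 := abs_pow_le_quarter hP hk
  have h3 : 1 - P ^ k ≠ 0 := by have := le_abs_self (P ^ k); linarith
  have h4 : P ^ k ≠ 0 := pow_ne_zero _ hP0
  unfold phi psi
  rw [zpow_neg, zpow_natCast]
  field_simp

lemma hasSum_congr2 {ι α : Type*} [AddCommMonoid α] [TopologicalSpace α] {f g : ι → α} {a b : α}
    (h : HasSum f a) (hf : ∀ n, g n = f n) (ha : b = a) : HasSum g b := by
  rw [show g = f from funext hf, ha]; exact h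

lemma hasSum_ind (l : ℤ) :
    HasSum (fun n : ℤ => (if 0 ≤ n + l then (1 : ℝ) else 0) - (if 0 ≤ n then (1 : ℝ) else 0)) l := by
  induction l using Int.induction_on with
  | zero => simp
  | succ l ih =>
    refine hasSum_congr2 (ih.add (hasSum_ite_eq (-(l : ℤ) - 1) (1 : ℝ))) (fun n => ?_) ?_
    · split_ifs <;> first | omega | norm_num
    · push_cast; ring
  | pred l ih =>
    refine hasSum_congr2 (ih.sub (hasSum_ite_eq (l : ℤ) (1 : ℝ))) (fun n => ?_) ?_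
    · split_ifs <;> first | omega | norm_num
    · push_cast; ring

lemma hasSum_phi {P : ℝ} (hP : |P| ≤ 1 / 4) (hP0 : P ≠ 0)
    (hA : ∑' i : ℕ, (psi P (3 * i + 2) - psi P (3 * i + 1)) = 1 / 6) (l : ℤ) :
    HasSum (fun n : ℤ => phi P (3 * n + 1) - phi P (3 * n + 1 + (3 * l + 1))) (1 / 3 + l) := by
  have s1 := (summable_psi hP 1 le_rfl).hasSum
  have s2 := (summable_psi hP 2 (by norm_num)).hasSum
  rw [(summable_psi hP 2 (by norm_num)).tsum_sub (summable_psi hP 1 le_rfl)] at hA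
  set a := ∑' i : ℕ, psi P (3 * i + 1)
  set b := ∑' i : ℕ, psi P (3 * i + 2)
  have hA1 : HasSum (fun n : ℤ => phi P (3 * n + 1) + (if 0 ≤ n then (1 : ℝ) else 0)) (-a + b) := by
    refine HasSum.of_nat_of_neg_add_one ?_ ?_
    · refine hasSum_congr2 s1.neg (fun n => ?_) rfl
      have := phi_pos hP (3 * n + 1) (by omega)
      push_cast at this
      rw [this, if_pos (by omega)]; ring
    · refine hasSum_congr2 s2 (fun n => ?_) rfl
      have := phi_neg hP hP0 (3 * n + 2) (by omega)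
      push_cast at this
      rw [if_neg (by omega), ← this, add_zero]
      exact congrArg _ (by ring)
  have hA2 : HasSum (fun n : ℤ => phi P (3 * n + 2) + (if 0 ≤ n then (1 : ℝ) else 0)) (-b + a) := by
    refine HasSum.of_nat_of_neg_add_one ?_ ?_
    · refine hasSum_congr2 s2.neg (fun n => ?_) rfl
      have := phi_pos hP (3 * n + 2) (by omega)
      push_cast at this
      rw [this, if_pos (by omega)]; ring
    · refine hasSum_congr2 s1 (fun n => ?_) rfl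
      have := phi_neg hP hP0 (3 * n + 1) (by omega)
      push_cast at this
      rw [if_neg (by omega), ← this, add_zero]
      exact congrArg _ (by ring)
  have hA3 := (Equiv.addRight l).hasSum_iff.mpr hA2
  refine hasSum_congr2 ((hA1.sub hA3).add (hasSum_ind l)) (fun n => ?_) ?_
  · simp only [Function.comp, Equiv.coe_addRight]
    have : 3 * n + 1 + (3 * l + 1) = 3 * (n + l) + 2 := by ring
    rw [this]; split_ifs <;> ring
  · linarith

end Pool.Agent.P.MP_c8d52e_an
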